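import Pool.Agent.Work.MP_71c844_lc.RH.Stmts

/-!
Block RH, item Ap: approximators for all instructions of a program.
-/

namespace Pool.Agent.RH

open Finset
open Pool.Agent.NegLim (Tn miss Closed lowSets minMembers trim Dich)
open Pool.Agent.RG (Scale)

namespace Apx

variable {E : Type} [Fintype E] [DecidableEq E] {U : Type} [Fintype U]

/-- the approximators of the first `s` instructions -/
structure Data (δ : ℝ) (L b : ℕ) (X W : ℝ) (Y : U → Finset E) (F : ℕ → Finset E → ℝ) (s : ℕ)
    (G : ℕ → ℝ → Finset (Finset E)) (P : Finset U) (Z : Finset E → ℝ) : Prop where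
  a1 : ∀ i < s, ∀ r, ∀ A ∈ G i r, A.card ≤ b
  a2 : (P.card : ℝ) ≤ s * X
  a3 : ∀ z, 0 ≤ Z z
  a4 : Tn δ L Z ∅ ≤ s * W
  a5 : ∀ u ∉ P, ∀ i < s, ∀ r, r ≤ F i (Y u) → ∃ A ∈ G i r, A ⊆ Y u
  a6 : ∀ z, ∀ i < s, ∀ r, (∃ A ∈ G i r, A ⊆ z) → F i z < r → 1 ≤ Z z

/-- one more instruction -/
lemma step {δ : ℝ} {L b : ℕ} {X W : ℝ} {Y : U → Finset E} {F : ℕ → Finset E → ℝ} {s : ℕ}
    {G : ℕ → ℝ → Finset (Finset E)} {P : Finset U} {Z : Finset E → ℝ}
    (D : Data δ L b X W Y F s G P Z) (𝒢 : ℝ → Finset (Finset E)) (P' : Finset U)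
    (Z' : Finset E → ℝ) (e1 : ∀ r, ∀ A ∈ 𝒢 r, A.card ≤ b) (e2 : (P'.card : ℝ) ≤ X)
    (e3 : ∀ z, 0 ≤ Z' z) (e4 : Tn δ L Z' ∅ ≤ W)
    (e5 : ∀ u ∉ P, u ∉ P' → ∀ r, r ≤ F s (Y u) → ∃ A ∈ 𝒢 r, A ⊆ Y u)
    (e6 : ∀ z r, (∃ A ∈ 𝒢 r, A ⊆ z) → F s z < r → 1 ≤ Z z + Z' z) :
    ∃ (G : ℕ → ℝ → Finset (Finset E)) (P : Finset U) (Z : Finset E → ℝ),
      Data δ L b X W Y F (s + 1) G P Z := by
  classical
  refine ⟨fun i => if i = s then 𝒢 else G i, P ∪ P', fun z => Z z + Z' z, ?_, ?_, ?_, ?_, ?_, ?_⟩
  · intro i hi r A hA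
    by_cases h : i = s
    · rw [if_pos h] at hA
      exact e1 r A hA
    · rw [if_neg h] at hA
      exact D.a1 i (by omega) r A hA
  · have h1 : ((P ∪ P').card : ℝ) ≤ P.card + P'.card := by
      exact_mod_cast Finset.card_union_le P P'
    have h2 := D.a2
    push_cast
    linarith
  · intro z
    exact add_nonneg (D.a3 z) (e3 z)
  · rw [NegLim.Tn_fadd]
    have h2 := D.a4
    push_cast
    linarith
  · intro u hu i hi r hr
    rw [Finset.mem_union, not_or] at hu
    by_cases h : i = s
    · subst h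
      rw [if_pos rfl]
      exact e5 u hu.1 hu.2 r hr
    · rw [if_neg h]
      exact D.a5 u hu.1 i (by omega) r hr
  · intro z i hi r hA hr
    have hz := D.a3 z
    have hz' := e3 z
    by_cases h : i = s
    · subst h
      rw [if_pos rfl] at hA
      exact e6 z r hA hr
    · rw [if_neg h] at hA
      have := D.a6 z i (by omega) r hA hr
      show 1 ≤ Z z + Z' z
      linarith

/-- the sets generated by a monotone gate -/
def Mem (r : ℕ) {m : ℕ} (φ : (Fin m → ℝ) → ℝ) (G : ℕ → ℝ → Finset (Finset E)) (a : Fin m → ℕ)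
    (x : ℝ) (A : Finset E) : Prop :=
  ∃ (y : Fin m → ℝ) (I : Finset (Fin m)) (A' : Fin m → Finset E), I.card ≤ 2 * r ∧
    (∀ y', (∀ l ∈ I, y l ≤ y' l) → x ≤ φ y') ∧
    (∀ l ∈ I, A' l ∈ G (a l) (y l)) ∧ A = I.biUnion A'

end Apx

theorem pfAp : StSt → StAp := by
  classical
  intro hSt E _ _ U _ δ L b t r B q ε Y S ht hrt s F hF
  have hX : (0 : ℝ) ≤ Fintype.card U * (2 * (2 * B / q) ^ (t + 1)) := by
    have h1 := S.hB
    have h2 := S.hq
    positivity
  have hW : (0 : ℝ) ≤ ((lowSets E b).card + 1) * ((lowSets E b).card * ε) := by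
    have h1 := S.hε
    positivity
  suffices H : ∃ (G : ℕ → ℝ → Finset (Finset E)) (P : Finset U) (Z : Finset E → ℝ),
      Apx.Data δ L t (Fintype.card U * (2 * (2 * B / q) ^ (t + 1)))
        (((lowSets E b).card + 1) * ((lowSets E b).card * ε)) Y F s G P Z by
    obtain ⟨G, P, Z, D⟩ := H
    exact ⟨G, P, Z, D.a1, D.a2, D.a3, D.a4, D.a5, D.a6⟩
  induction s with
  | zero =>
    refine ⟨fun _ _ => ∅, ∅, fun _ => 0, ?_, ?_, ?_, ?_, ?_, ?_⟩
    · intro i hi
      omega
    · simp
    · intro z
      exact le_rfl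
    · rw [NegLim.Tn_const]
      simp
    · intro u _ i hi
      omega
    · intro z i hi
      omega
  | succ s ih =>
    obtain ⟨G, P, Z, D⟩ := ih (fun i hi => hF i (by omega))
    rcases hF s (by omega) with ⟨e, he⟩ | ⟨m, φ, hφ, a, ha, hjk⟩
    · refine Apx.step D (fun x => if x ≤ 0 then {∅} else if x ≤ 1 then {{e}} else ∅) ∅
        (fun _ => 0) ?_ ?_ ?_ ?_ ?_ ?_
      · intro x A hA
        split_ifs at hA
        · rw [Finset.mem_singleton] at hA
          rw [hA]
          simp
        · rw [Finset.mem_singleton] at hA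
          rw [hA, Finset.card_singleton]
          exact ht
        · simp at hA
      · simpa using hX
      · intro z
        exact le_rfl
      · rw [NegLim.Tn_const]
        exact hW
      · intro u _ _ x hr
        rw [he] at hr
        by_cases h0 : x ≤ 0
        · rw [if_pos h0]
          exact ⟨∅, Finset.mem_singleton_self _, Finset.empty_subset _⟩
        · rw [if_neg h0]
          by_cases hu : e ∈ Y u
          · rw [if_pos hu] at hr
            rw [if_pos hr]
            exact ⟨{e}, Finset.mem_singleton_self _, by simpa using hu⟩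
          · rw [if_neg hu] at hr
            exact absurd hr h0
      · rintro z x ⟨A, hA, hAz⟩ hlt
        rw [he] at hlt
        by_cases h0 : x ≤ 0
        · exfalso
          have : (0 : ℝ) ≤ if e ∈ z then (1 : ℝ) else 0 := by split_ifs <;> norm_num
          linarith
        · rw [if_neg h0] at hA
          by_cases h1 : x ≤ 1
          · rw [if_pos h1, Finset.mem_singleton] at hA
            rw [hA, Finset.singleton_subset_iff] at hAz
            rw [if_pos hAz] at hlt
            exact absurd hlt (not_lt.2 h1)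
          · rw [if_neg h1] at hA
            simp at hA
    · obtain ⟨𝒢, P', Z', f1, f2, f3, f4, f5, f6⟩ := hSt E U δ L b t B q ε Y S
        (fun x => univ.filter (fun A => Apx.Mem r φ G a x A))
        (by
          intro r' r'' hrr A hA
          rw [Finset.mem_filter] at hA ⊢
          obtain ⟨-, y, I, A', h1, h2, h3⟩ := hA
          exact ⟨Finset.mem_univ _, y, I, A', h1, fun y' hy' => hrr.trans (h2 y' hy'), h3⟩)
        (by
          intro r' A hA
          rw [Finset.mem_filter] at hA
          obtain ⟨-, y, I, A', hI, -, h1, rfl⟩ := hA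
          rw [lowSets, Finset.mem_filter]
          refine ⟨Finset.mem_univ _, ?_⟩
          have h2 : (I.biUnion A').card ≤ ∑ l ∈ I, (A' l).card :=
            Finset.card_biUnion_le
          have h3 : ∑ l ∈ I, (A' l).card ≤ ∑ _l ∈ I, t :=
            Finset.sum_le_sum (fun l hl => D.a1 (a l) (ha l) (y l) (A' l) (h1 l hl))
          have h4 : ∑ _l ∈ I, t = I.card * t := by simp
          have h5 : I.card * t ≤ 2 * r * t := Nat.mul_le_mul_right t hI
          have h6 : 2 * r * t = 2 * (r * t) := by ring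
          omega)
      refine Apx.step D 𝒢 P' Z' f1 f2 f3 f4 ?_ ?_
      · intro u hu hu' x hr
        rw [hjk] at hr
        have hch : ∀ l : Fin m, ∃ A ∈ G (a l) (F (a l) (Y u)), A ⊆ Y u :=
          fun l => D.a5 u hu (a l) (ha l) (F (a l) (Y u)) le_rfl
        choose A' hA' hs' using hch
        obtain ⟨I, hI, hcert⟩ := hφ (fun l => F (a l) (Y u))
        refine f5 u hu' x ⟨I.biUnion A', ?_, ?_⟩
        · rw [Finset.mem_filter]
          exact ⟨Finset.mem_univ _, fun l => F (a l) (Y u), I, A', hI,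
            fun y' hy' => hr.trans (hcert y' hy'), fun l _ => hA' l, rfl⟩
        · rw [Finset.biUnion_subset]
          exact fun l _ => hs' l
      · intro z x hA hlt
        have hz := D.a3 z
        have hz' := f3 z
        by_cases hU : ∃ A ∈ univ.filter (fun A => Apx.Mem r φ G a x A), A ⊆ z
        · obtain ⟨A, hAm, hAz⟩ := hU
          rw [Finset.mem_filter] at hAm
          obtain ⟨-, y, I, A', -, h2, h1, rfl⟩ := hAm
          rw [hjk] at hlt
          have hor : ∃ l ∈ I, F (a l) z < y l := by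
            by_contra hcon
            push Not at hcon
            have := h2 (fun l => F (a l) z) hcon
            linarith
          obtain ⟨l, hlI, hl⟩ := hor
          have h3 : A' l ⊆ z :=
            (Finset.subset_biUnion_of_mem A' hlI).trans hAz
          have := D.a6 z (a l) (ha l) (y l) ⟨A' l, h1 l hlI, h3⟩ hl
          linarith
        · have := f6 z x hA hU
          linarith

end Pool.Agent.RH
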