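import Pool.Agent.Work.MP_71c844_lc.RH.Stmts

/-!
Block RH, item Bt: the negative of a small natural number with few NOT gates.
-/

namespace Pool.Agent.RH

open Finset

namespace Btx

theorem mono {ι : Type} {s T : ℕ} {𝓕 𝓕' : Set ((ι → Bool) → ℝ)} (h : Prov s T 𝓕')
    (hs : 𝓕 ⊆ 𝓕') : Prov s T 𝓕 := by
  obtain ⟨c, h1, h2, h3, h4⟩ := h
  exact ⟨c, h1, h2, h3, fun g hg => h4 g (hs hg)⟩

end Btx

theorem pfBt (hE : StEx) : StBt := by
  intro ι T'
  induction T' with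
  | zero =>
    intro s T 𝓕 hP S hS hlt
    have h := (((hE ι).2 s T 𝓕 hP).2.1 0)
    have e : (fun x : ι → Bool => -(S x : ℝ)) = fun _ => (0 : ℝ) := by
      funext x
      have := hlt x
      have h0 : S x = 0 := by
        rw [pow_zero] at this
        omega
      rw [h0]
      simp
    rw [e]
    exact h
  | succ T' ih =>
    intro s T 𝓕 hP S hS hlt
    -- the leading bit
    have p1 := ((hE ι).2 s T 𝓕 hP).2.2.1 _ hS _ hS
      (fun a _ => if (2 : ℝ) ^ T' ≤ a then (1 : ℝ) else 0) (by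
        intro a b c d hab _
        show (if (2 : ℝ) ^ T' ≤ a then (1 : ℝ) else 0) ≤ if (2 : ℝ) ^ T' ≤ b then (1 : ℝ) else 0
        by_cases h : (2 : ℝ) ^ T' ≤ a
        · rw [if_pos h, if_pos (h.trans hab)]
        · rw [if_neg h]
          split_ifs <;> norm_num)
    obtain ⟨β, hβ⟩ : ∃ β : (ι → Bool) → ℝ, β = fun x =>
        if (2 : ℝ) ^ T' ≤ (S x : ℝ) then (1 : ℝ) else 0 := ⟨_, rfl⟩
    change Prov (s + 1) T (insert (fun x => if (2 : ℝ) ^ T' ≤ (S x : ℝ) then (1 : ℝ) else 0) 𝓕) at p1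
    rw [← hβ] at p1
    have p2 := ((hE ι).2 _ _ _ p1).2.2.2 β (Set.mem_insert _ _) (by
      intro x
      rw [hβ]
      show (if (2 : ℝ) ^ T' ≤ (S x : ℝ) then (1 : ℝ) else 0) = 0 ∨
        (if (2 : ℝ) ^ T' ≤ (S x : ℝ) then (1 : ℝ) else 0) = 1
      by_cases h : (2 : ℝ) ^ T' ≤ (S x : ℝ)
      · rw [if_pos h]; exact Or.inr rfl
      · rw [if_neg h]; exact Or.inl rfl)
    obtain ⟨γ, hγ⟩ : ∃ γ : (ι → Bool) → ℝ, γ = fun x => 1 - β x := ⟨_, rfl⟩
    rw [← hγ] at p2
    -- the rest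
    obtain ⟨S', hS'⟩ : ∃ S' : (ι → Bool) → ℕ, S' = fun x =>
        if 2 ^ T' ≤ S x then S x - 2 ^ T' else S x := ⟨_, rfl⟩
    have key : ∀ x, (S' x : ℝ) = (S x : ℝ) + 2 ^ T' * γ x - 2 ^ T' := by
      intro x
      rw [hS', hγ, hβ]
      show ((if 2 ^ T' ≤ S x then S x - 2 ^ T' else S x : ℕ) : ℝ) =
        (S x : ℝ) + 2 ^ T' * (1 - if (2 : ℝ) ^ T' ≤ (S x : ℝ) then (1 : ℝ) else 0) - 2 ^ T'
      by_cases h : 2 ^ T' ≤ S x
      · have h' : (2 : ℝ) ^ T' ≤ (S x : ℝ) := by exact_mod_cast h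
        rw [if_pos h, if_pos h', Nat.cast_sub h]
        push_cast
        ring
      · have h' : ¬ (2 : ℝ) ^ T' ≤ (S x : ℝ) := by
          intro h2
          exact h (by exact_mod_cast h2)
        rw [if_neg h, if_neg h']
        ring
    have hlt' : ∀ x, S' x < 2 ^ T' := by
      intro x
      have := hlt x
      rw [pow_succ] at this
      rw [hS']
      show (if 2 ^ T' ≤ S x then S x - 2 ^ T' else S x) < 2 ^ T'
      by_cases h : 2 ^ T' ≤ S x
      · rw [if_pos h]; omega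
      · rw [if_neg h]; omega
    have hpos : (0 : ℝ) ≤ 2 ^ T' := by positivity
    have p3 := ((hE ι).2 _ _ _ p2).2.2.1 (fun x => (S x : ℝ))
      (Set.mem_insert_of_mem _ (Set.mem_insert_of_mem _ hS)) γ (Set.mem_insert _ _)
      (fun a c => a + 2 ^ T' * c - 2 ^ T') (by
        intro a b c d hab hcd
        show a + 2 ^ T' * c - 2 ^ T' ≤ b + 2 ^ T' * d - 2 ^ T'
        have := mul_le_mul_of_nonneg_left hcd hpos
        linarith)
    have e3 : (fun x => (fun a c : ℝ => a + 2 ^ T' * c - 2 ^ T') ((fun x => (S x : ℝ)) x) (γ x)) =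
        fun x => (S' x : ℝ) := by
      funext x
      exact (key x).symm
    rw [e3] at p3
    have p4 := ih _ _ _ p3 S' (Set.mem_insert _ _) hlt'
    have p5 := ((hE ι).2 _ _ _ p4).2.2.1 (fun x => -(S' x : ℝ)) (Set.mem_insert _ _) γ
      (Set.mem_insert_of_mem _ (Set.mem_insert_of_mem _ (Set.mem_insert _ _)))
      (fun a c => a + 2 ^ T' * c - 2 ^ T') (by
        intro a b c d hab hcd
        show a + 2 ^ T' * c - 2 ^ T' ≤ b + 2 ^ T' * d - 2 ^ T'
        have := mul_le_mul_of_nonneg_left hcd hpos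
        linarith)
    have e5 : (fun x => (fun a c : ℝ => a + 2 ^ T' * c - 2 ^ T') ((fun x => -(S' x : ℝ)) x) (γ x)) =
        fun x => -(S x : ℝ) := by
      funext x
      show -(S' x : ℝ) + 2 ^ T' * γ x - 2 ^ T' = -(S x : ℝ)
      rw [key x]
      ring
    rw [e5] at p5
    have a1 : s + 1 + 1 + 1 + 4 * T' + 1 + 1 = s + 4 * (T' + 1) + 1 := by ring
    have a2 : T + 1 + T' = T + (T' + 1) := by ring
    rw [a1, a2] at p5
    refine Btx.mono p5 ?_
    intro g hg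
    rcases hg with rfl | hg
    · exact Set.mem_insert _ _
    · exact Set.mem_insert_of_mem _ (Set.mem_insert_of_mem _ (Set.mem_insert_of_mem _
        (Set.mem_insert_of_mem _ (Set.mem_insert_of_mem _ hg))))

end Pool.Agent.RH
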