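import Pool.Agent.Work.MP_71c844_lc.RH.Stmts

/-!
Block RH, item Cp: the complements of all variables with few gates and `log n` NOT gates.
-/

namespace Pool.Agent.RH

open Finset

namespace Cpx

theorem Prov.mono {ι : Type} {s T : ℕ} {𝓕 𝓕' : Set ((ι → Bool) → ℝ)} (h : Prov s T 𝓕)
    (hs : 𝓕' ⊆ 𝓕) : Prov s T 𝓕' := by
  obtain ⟨c, h1, h2, h3, h4⟩ := h
  exact ⟨c, h1, h2, h3, fun g hg => h4 g (hs hg)⟩

theorem Prov.more (hEx : StEx) {ι : Type} {s T : ℕ} {𝓕 : Set ((ι → Bool) → ℝ)} (h : Prov s T 𝓕)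
    (k : ℕ) : Prov (s + k) T 𝓕 := by
  induction k with
  | zero => exact h
  | succ k ih =>
    exact Prov.mono (((hEx ι).2 _ _ _ ih).2.1 0) (Set.subset_insert _ _)

/-- the `i`-th variable as a natural number (`0` for `i ≥ n`) -/
def gn (n i : ℕ) (x : Fin n → Bool) : ℕ := if h : i < n then (if x ⟨i, h⟩ then 1 else 0) else 0

theorem gn_le (n i : ℕ) (x : Fin n → Bool) : gn n i x ≤ 1 := by
  unfold gn
  split_ifs <;> simp

/-- the `i`-th variable as a real number -/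
noncomputable def g (n i : ℕ) (x : Fin n → Bool) : ℝ := (gn n i x : ℝ)

theorem g_eq (n : ℕ) (i : Fin n) : g n i.1 = fun x => if x i then (1 : ℝ) else 0 := by
  funext x
  unfold g gn
  rw [dif_pos i.2]
  by_cases h : x i <;> simp [h]

theorem step1 (hEx : StEx) (n : ℕ) : ∀ m ≤ n, Prov (ι := Fin n) m 0 {h | ∃ i < m, h = g n i} := by
  intro m
  induction m with
  | zero =>
    intro _
    refine Prov.mono (hEx (Fin n)).1 ?_
    rintro h ⟨i, hi, -⟩
    exact absurd hi (Nat.not_lt_zero i)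
  | succ m ih =>
    intro hm
    have h1 := ((hEx (Fin n)).2 _ _ _ (ih (by omega))).1 ⟨m, by omega⟩
    rw [← g_eq n ⟨m, by omega⟩] at h1
    refine Prov.mono h1 ?_
    rintro h ⟨i, hi, rfl⟩
    rcases Nat.lt_succ_iff_lt_or_eq.mp hi with h2 | h2
    · exact Or.inr ⟨i, h2, rfl⟩
    · subst h2
      exact Or.inl rfl

theorem sum_split (n m : ℕ) (hm : m < n) (x : Fin n → Bool) :
    (∑ i ∈ range n, g n i x) =
      (∑ i ∈ range m, g n i x) + (∑ i ∈ range (n - 1 - m), g n (n - 1 - i) x) + g n m x := by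
  have h1 : (∑ i ∈ range (n - 1 - m), g n (n - 1 - i) x) = ∑ i ∈ range (n - 1 - m),
      g n (m + 1 + i) x := by
    rw [← Finset.sum_range_reflect]
    apply Finset.sum_congr rfl
    intro i hi
    rw [Finset.mem_range] at hi
    have : n - 1 - (n - 1 - m - 1 - i) = m + 1 + i := by omega
    rw [this]
  have h2 : n = m + 1 + (n - 1 - m) := by omega
  have h3 : (∑ i ∈ range n, g n i x) = (∑ i ∈ range (m + 1), g n i x) +
      ∑ i ∈ range (n - 1 - m), g n (m + 1 + i) x := by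
    rw [← Finset.sum_range_add, ← h2]
  rw [h1, h3, Finset.sum_range_succ]
  ring

/-- the partial sums -/
noncomputable def ps (n j : ℕ) (x : Fin n → Bool) : ℝ := ∑ i ∈ range j, g n i x

/-- the reverse partial sums -/
noncomputable def rs (n j : ℕ) (x : Fin n → Bool) : ℝ := ∑ i ∈ range j, g n (n - 1 - i) x

/-- the number of ones -/
def S (n : ℕ) (x : Fin n → Bool) : ℕ := ∑ i ∈ range n, gn n i x

theorem S_cast (n : ℕ) (x : Fin n → Bool) : (S n x : ℝ) = ps n n x := by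
  unfold S ps g
  push_cast
  rfl

theorem S_lt (n : ℕ) (x : Fin n → Bool) : S n x < 2 ^ (Nat.log 2 n + 1) := by
  have h1 : S n x ≤ n := by
    unfold S
    calc ∑ i ∈ range n, gn n i x ≤ ∑ _i ∈ range n, 1 := Finset.sum_le_sum fun i _ => gn_le n i x
      _ = n := by simp
  exact lt_of_le_of_lt h1 (Nat.lt_pow_succ_log_self (by norm_num) n)

/-- all functions after the sums -/
def F4 (n : ℕ) : Set ((Fin n → Bool) → ℝ) :=
  {h | (∃ i < n, h = g n i) ∨ (∃ j ≤ n, h = ps n j) ∨ (h = fun x => -(S n x : ℝ)) ∨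
    ∃ j ≤ n, h = rs n j}

theorem step4 (hEx : StEx) (hSu : StSu) (hBt : StBt) (n : ℕ) :
    Prov (ι := Fin n) (n + n + 1 + 4 * (Nat.log 2 n + 1) + 1 + n + 1) (Nat.log 2 n + 1)
      (F4 n) := by
  have p1 := step1 hEx n n le_rfl
  have p2 := hSu (Fin n) _ _ _ p1 n (g n) (fun _ => 1) (fun i hi => ⟨i, hi, rfl⟩)
    (fun _ => zero_le_one)
  have p3 := hBt (Fin n) (Nat.log 2 n + 1) _ _ _ p2 (S n) (by
    right
    refine ⟨n, le_rfl, ?_⟩
    funext x
    rw [S_cast]
    simp [ps]) (S_lt n)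
  rw [zero_add] at p3
  have p4 := hSu (Fin n) _ _ _ p3 n (fun i => g n (n - 1 - i)) (fun _ => 1) (fun i hi => by
    right
    left
    exact ⟨n - 1 - i, by omega, rfl⟩) (fun _ => zero_le_one)
  refine Prov.mono p4 ?_
  rintro h (⟨i, hi, rfl⟩ | ⟨j, hj, rfl⟩ | rfl | ⟨j, hj, rfl⟩)
  · exact Or.inl (Or.inr (Or.inl ⟨i, hi, rfl⟩))
  · left
    right
    right
    refine ⟨j, hj, ?_⟩
    funext x
    simp [ps]
  · exact Or.inl (Or.inl rfl)
  · right
    refine ⟨j, hj, ?_⟩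
    funext x
    simp [rs]

theorem comp_eq (n : ℕ) (i : Fin n) :
    (fun x : Fin n → Bool => if 0 ≤ (ps n i.1 x + rs n (n - 1 - i.1) x) + -(S n x : ℝ) then
      (1 : ℝ) else 0) = fun x => if x i then (0 : ℝ) else 1 := by
  funext x
  have h1 := sum_split n i.1 i.2 x
  have h2 : (S n x : ℝ) = ps n i.1 x + rs n (n - 1 - i.1) x + g n i.1 x := by
    rw [S_cast]
    exact h1
  have h3 : g n i.1 x = if x i then (1 : ℝ) else 0 := congrFun (g_eq n i) x
  rw [h2, h3]
  by_cases h : x i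
  · simp only [h, if_true]
    rw [if_neg]
    intro h4
    linarith
  · simp only [h, if_neg, Bool.false_eq_true]
    rw [if_pos]
    · simp
    · simp

theorem step5 (hEx : StEx) (hSu : StSu) (hBt : StBt) (n : ℕ) : ∀ m ≤ n,
    Prov (ι := Fin n) (n + n + 1 + 4 * (Nat.log 2 n + 1) + 1 + n + 1 + 2 * m) (Nat.log 2 n + 1)
      (F4 n ∪ {h | ∃ i : Fin n, i.1 < m ∧ h = fun x => if x i then (0 : ℝ) else 1}) := by
  intro m
  induction m with
  | zero =>
    intro _
    refine Prov.mono (step4 hEx hSu hBt n) ?_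
    rintro h (h1 | ⟨i, hi, -⟩)
    · exact h1
    · exact absurd hi (Nat.not_lt_zero _)
  | succ m ih =>
    intro hm
    have h0 := ih (by omega)
    have h1 := ((hEx (Fin n)).2 _ _ _ h0).2.2.1 (ps n m)
      (Or.inl (Or.inr (Or.inl ⟨m, by omega, rfl⟩))) (rs n (n - 1 - m))
      (Or.inl (Or.inr (Or.inr (Or.inr ⟨n - 1 - m, by omega, rfl⟩)))) (fun a c => a + c)
      (fun a b c d hab hcd => add_le_add hab hcd)
    have h2 := ((hEx (Fin n)).2 _ _ _ h1).2.2.1 (fun x => ps n m x + rs n (n - 1 - m) x)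
      (Or.inl rfl) (fun x => -(S n x : ℝ))
      (Or.inr (Or.inl (Or.inr (Or.inr (Or.inl rfl)))))
      (fun a c => if 0 ≤ a + c then (1 : ℝ) else 0)
      (fun a b c d hab hcd => by
        by_cases h3 : 0 ≤ a + c
        · rw [if_pos h3, if_pos (h3.trans (add_le_add hab hcd))]
        · rw [if_neg h3]
          split_ifs <;> norm_num)
    refine Prov.mono h2 ?_
    rintro h (h4 | ⟨i, hi, rfl⟩)
    · exact Or.inr (Or.inr (Or.inl h4))
    · rcases Nat.lt_succ_iff_lt_or_eq.mp hi with h5 | h5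
      · exact Or.inr (Or.inr (Or.inr ⟨i, h5, rfl⟩))
      · left
        subst h5
        exact (comp_eq n i).symm

end Cpx

theorem pfCp : StEx → StSu → StBt → StCp := by
  intro hEx hSu hBt n
  have h1 := Cpx.step5 hEx hSu hBt n n le_rfl
  have hlog : Nat.log 2 n ≤ n := Nat.log_le_self 2 n
  have h2 : 9 * n + 7 = (n + n + 1 + 4 * (Nat.log 2 n + 1) + 1 + n + 1 + 2 * n) +
      (4 * n - 4 * Nat.log 2 n) := by omega
  rw [h2]
  refine Cpx.Prov.mono (Cpx.Prov.more hEx h1 _) ?_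
  rintro h (⟨i, rfl⟩ | ⟨i, rfl⟩)
  · left
    left
    exact ⟨i.1, i.2, (Cpx.g_eq n i).symm⟩
  · right
    exact ⟨i, i.2, rfl⟩

end Pool.Agent.RH
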