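import Pool.Agent.Work.MP_71c844_lc.RH.Stmts

/-! Block RH, item Dc: the dichotomy at one scale. Model: RG/I_Dc.lean. -/

namespace Pool.Agent.RH

open Finset
open Pool.Agent.NegLim
open Pool.Agent.RG
open Pool.Agent.Rec82 (Sun planted_count)

theorem pfDc : StAp → StDc := by
  classical
  intro hAp E _ _ U _ δ L b t r B q ε Y S ht hr hrt s F hF i hi x
  obtain ⟨G, P, Z, h1, h2, h3, h4, h5, h6⟩ := hAp E U δ L b t r B q ε Y S ht hrt s F hF
  have htb : t ≤ b := (Nat.le_mul_of_pos_left t hr).trans hrt
  have hlow : G i x ⊆ lowSets E b := by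
    intro A hA
    rw [lowSets, Finset.mem_filter]
    exact ⟨mem_univ _, (h1 i hi x A hA).trans (by omega)⟩
  obtain ⟨𝒱, g1, g2, g3, g4⟩ := exists_closed S.h0 S.h1 L b ε S.hε
    (G i x) hlow
  have hcε : 0 ≤ ((lowSets E b).card : ℝ) * ε := mul_nonneg (Nat.cast_nonneg _) S.hε
  by_cases he : ∅ ∈ 𝒱
  · left
    have hpt : ∀ z, (if x ≤ F i z then (0 : ℝ) else 1) ≤
        (miss (G i x) z - miss 𝒱 z) + Z z := by
      intro z
      have hm𝒱 : miss 𝒱 z = 0 := by
        unfold miss; rw [if_pos ⟨∅, he, Finset.empty_subset _⟩]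
      rw [hm𝒱]
      have hz := h3 z
      split_ifs with hv
      · rcases miss_zero_or_one (G i x) z with h | h <;> rw [h] <;> linarith
      · by_cases hG : ∃ A ∈ G i x, A ⊆ z
        · have := h6 z i hi x hG (not_le.mp hv)
          rcases miss_zero_or_one (G i x) z with h | h <;> rw [h] <;> linarith
        · have : miss (G i x) z = 1 := by unfold miss; rw [if_neg hG]
          rw [this]; linarith
    calc Tn δ L (fun z => if x ≤ F i z then (0 : ℝ) else 1) ∅
        ≤ Tn δ L (fun z => (miss (G i x) z - miss 𝒱 z) + Z z) ∅ :=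
          Tn_mono S.h0 S.h1 hpt _ _
      _ = Tn δ L (fun z => miss (G i x) z - miss 𝒱 z) ∅ + Tn δ L Z ∅ :=
          Tn_fadd _ _ _ _
      _ ≤ (lowSets E b).card * ε +
          s * (((lowSets E b).card + 1) * ((lowSets E b).card * ε)) :=
          add_le_add g4 h4
      _ ≤ (s + 1) * (((lowSets E b).card + 1) * ((lowSets E b).card * ε)) := by
          have hc0 : (0 : ℝ) ≤ ((lowSets E b).card : ℝ) := Nat.cast_nonneg _
          nlinarith [mul_nonneg hc0 hcε]
  · right
    have hsub : univ.filter (fun u => x ≤ F i (Y u)) ⊆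
        P ∪ univ.filter (fun u => ∃ A ∈ minMembers 𝒱 A.card, 1 ≤ A.card ∧ A ⊆ Y u) := by
      intro u hu
      rw [Finset.mem_filter] at hu
      rw [Finset.mem_union]
      by_cases hP : u ∈ P
      · left; exact hP
      · right
        obtain ⟨A, hA, hAu⟩ := h5 u hP i hi x hu.2
        obtain ⟨A', hA', hmin⟩ := exists_minMember (g1 hA)
        rw [Finset.mem_filter]
        refine ⟨mem_univ _, A', hmin, ?_, hA'.trans hAu⟩
        by_contra hcon
        have : A' = ∅ := by
          rw [← Finset.card_eq_zero]; omega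
        apply he
        rw [← this]
        exact (mem_minMembers.mp hmin).1
    have hq := S.hq
    have hBq : B / q ≤ 1 / 2 := by
      have h := S.hBq
      have h' : 2 * B / q = 2 * (B / q) := by ring
      have h0 : 0 < B / q := div_pos S.hB hq
      rw [h'] at h
      linarith
    have hcount := planted_count S.h0 S.h1 L b B q ε S.hB S.hq hBq S.sun 𝒱 g2 g3 Y
      (fun A hA => by convert S.hY A hA) 1
    have e1 : ((univ.filter (fun u => x ≤ F i (Y u))).card : ℝ) ≤
        P.card + (univ.filter (fun u => ∃ A ∈ minMembers 𝒱 A.card, 1 ≤ A.card ∧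
          A ⊆ Y u)).card := by
      exact_mod_cast (Finset.card_le_card hsub).trans (Finset.card_union_le _ _)
    rw [pow_one] at hcount
    calc _ ≤ _ := e1
      _ ≤ s * (Fintype.card U * (2 * (2 * B / q) ^ (t + 1))) +
          Fintype.card U * (2 * (B / q)) := add_le_add h2 hcount
      _ = _ := by ring

end Pool.Agent.RH
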