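import Pool.Agent.Work.MP_71c844_lc.RH.Stmts

/-!
Item Ex of the block RH: adding one gate.
-/

namespace Pool.Agent.RH

open Finset

namespace Exx

variable {ι : Type} {s : ℕ}

/-- The circuit `c` with the last gate `g`. -/
def ext (c : Circuit ι s) (g : Gate ι s) : Circuit ι (s + 1) :=
  Fin.snoc (α := fun i : Fin (s + 1) => Gate ι i.1) c g

theorem ext_old (c : Circuit ι s) (g : Gate ι s) (i : Fin s) : ext c g i.castSucc = c i :=
  Fin.snoc_castSucc (α := fun i : Fin (s + 1) => Gate ι i.1) g c i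

theorem ext_last (c : Circuit ι s) (g : Gate ι s) : ext c g (Fin.last s) = g :=
  Fin.snoc_last (α := fun i : Fin (s + 1) => Gate ι i.1) g c

theorem val_aux (c : Circuit ι s) (g : Gate ι s) (x : ι → Bool) :
    ∀ (m : ℕ) (hm : m < s), val (ext c g) x ⟨m, hm.trans (Nat.lt_succ_self s)⟩ = val c x ⟨m, hm⟩ := by
  intro m
  induction m using Nat.strong_induction_on with
  | _ m ih =>
    intro hm
    have he : ext c g ⟨m, hm.trans (Nat.lt_succ_self s)⟩ = c ⟨m, hm⟩ := ext_old c g ⟨m, hm⟩
    rw [val, val, he]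
    rcases c ⟨m, hm⟩ with e | ⟨k, a, φ, hφ⟩ | ⟨k, a, f⟩
    · rfl
    · show φ (fun l => val (ext c g) x ⟨(a l).1, _⟩) = φ (fun l => val c x ⟨(a l).1, _⟩)
      congr 1
      funext l
      exact ih (a l).1 (a l).2 ((a l).2.trans hm)
    · show f (fun l => val (ext c g) x ⟨(a l).1, _⟩) = f (fun l => val c x ⟨(a l).1, _⟩)
      congr 1
      funext l
      exact ih (a l).1 (a l).2 ((a l).2.trans hm)

theorem val_old (c : Circuit ι s) (g : Gate ι s) (x : ι → Bool) (i : Fin s) :
    val (ext c g) x i.castSucc = val c x i := val_aux c g x i.1 i.2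

theorem arb_old (c : Circuit ι s) (g : Gate ι s) (i : Fin s) :
    Arb (ext c g) i.castSucc ↔ Arb c i := by
  unfold Arb
  rw [ext_old]
  rfl

theorem not_old (c : Circuit ι s) (g : Gate ι s) (i : Fin s) (h : IsNot c i) :
    IsNot (ext c g) i.castSucc := by
  obtain ⟨j, hj, hv⟩ := h
  refine ⟨j, by rw [ext_old]; exact hj, fun x => ?_⟩
  have h1 := val_aux c g x j.1 (j.2.trans i.2)
  have h2 := hv x
  rw [← h1] at h2
  exact h2

theorem prov_ext (T T' : ℕ) (𝓕 : Set ((ι → Bool) → ℝ)) (c : Circuit ι s) (hf : FanIn c 2)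
    (hn : ∀ i, Arb c i → IsNot c i) (hT : Nat.card {i // Arb c i} ≤ T)
    (hF : ∀ g ∈ 𝓕, ∃ i, ∀ x, val c x i = g x) (g : Gate ι s) (F : (ι → Bool) → ℝ)
    (hval : ∀ x, val (ext c g) x (Fin.last s) = F x)
    (hfan : ∀ (m : ℕ) (a : Fin m → Fin s) (φ : (Fin m → ℝ) → ℝ) (hφ : Monotone φ),
      g = .mon m a φ hφ → m ≤ 2)
    (harb : (¬ Arb (ext c g) (Fin.last s) ∧ T ≤ T') ∨
      (IsNot (ext c g) (Fin.last s) ∧ T + 1 ≤ T')) : Prov (s + 1) T' (insert F 𝓕) := by
  have hset : Nat.card {i // Arb c i} = ({i | Arb c i} : Set (Fin s)).ncard :=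
    Nat.card_coe_set_eq _
  have hset' : Nat.card {i // Arb (ext c g) i} = ({i | Arb (ext c g) i} : Set (Fin (s + 1))).ncard :=
    Nat.card_coe_set_eq _
  refine ⟨ext c g, ?_, ?_, ?_, ?_⟩
  · intro i
    refine Fin.lastCases ?_ (fun i => ?_) i
    · intro m a φ hφ h
      rw [ext_last] at h
      exact hfan m a φ hφ h
    · intro m a φ hφ h
      rw [ext_old] at h
      exact hf i m a φ hφ h
  · intro i
    refine Fin.lastCases ?_ (fun i => ?_) i
    · intro h
      rcases harb with h1 | h1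
      · exact absurd h h1.1
      · exact h1.1
    · intro h
      exact not_old c g i (hn i ((arb_old c g i).1 h))
  · rw [hset']
    have himg : ((Fin.castSucc : Fin s → Fin (s + 1)) '' {i | Arb c i}).ncard ≤ T := by
      rw [Set.ncard_image_of_injective _ (Fin.castSucc_injective s), ← hset]
      exact hT
    rcases harb with h1 | h1
    · have hsub : ({i | Arb (ext c g) i} : Set (Fin (s + 1))) ⊆ Fin.castSucc '' {i | Arb c i} := by
        intro i
        refine Fin.lastCases ?_ (fun i => ?_) i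
        · intro h
          exact absurd h h1.1
        · intro h
          exact ⟨i, (arb_old c g i).1 h, rfl⟩
      exact (Set.ncard_le_ncard hsub (Set.toFinite _)).trans (himg.trans h1.2)
    · have hsub : ({i | Arb (ext c g) i} : Set (Fin (s + 1))) ⊆
          insert (Fin.last s) (Fin.castSucc '' {i | Arb c i}) := by
        intro i
        refine Fin.lastCases ?_ (fun i => ?_) i
        · intro _
          exact Set.mem_insert _ _
        · intro h
          exact Set.mem_insert_of_mem _ ⟨i, (arb_old c g i).1 h, rfl⟩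
      refine (Set.ncard_le_ncard hsub (Set.toFinite _)).trans ?_
      refine (Set.ncard_insert_le _ _).trans ?_
      omega
  · intro h hh
    rcases hh with rfl | hh
    · exact ⟨Fin.last s, hval⟩
    · obtain ⟨i, hi⟩ := hF h hh
      exact ⟨i.castSucc, fun x => by rw [val_old]; exact hi x⟩

theorem last_var (c : Circuit ι s) (e : ι) (x : ι → Bool) :
    val (ext c (.var e)) x (Fin.last s) = if x e then 1 else 0 := by
  rw [val, ext_last]

theorem last_mon (c : Circuit ι s) (m : ℕ) (a : Fin m → Fin s) (φ : (Fin m → ℝ) → ℝ)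
    (hφ : Monotone φ) (x : ι → Bool) :
    val (ext c (.mon m a φ hφ)) x (Fin.last s) = φ fun l => val c x (a l) := by
  rw [val, ext_last]
  show φ (fun l => val (ext c (.mon m a φ hφ)) x ⟨(a l).1, _⟩) = φ (fun l => val c x (a l))
  congr 1
  funext l
  exact val_aux c _ x (a l).1 (a l).2

theorem last_arb (c : Circuit ι s) (m : ℕ) (a : Fin m → Fin s) (f : (Fin m → ℝ) → ℝ)
    (x : ι → Bool) :
    val (ext c (.arb m a f)) x (Fin.last s) = f fun l => val c x (a l) := by
  rw [val, ext_last]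
  show f (fun l => val (ext c (.arb m a f)) x ⟨(a l).1, _⟩) = f (fun l => val c x (a l))
  congr 1
  funext l
  exact val_aux c _ x (a l).1 (a l).2

theorem not_arb_var (c : Circuit ι s) (e : ι) : ¬ Arb (ext c (.var e)) (Fin.last s) := by
  rintro ⟨m, a, f, h⟩
  rw [ext_last] at h
  cases h

theorem not_arb_mon (c : Circuit ι s) (m : ℕ) (a : Fin m → Fin s) (φ : (Fin m → ℝ) → ℝ)
    (hφ : Monotone φ) : ¬ Arb (ext c (.mon m a φ hφ)) (Fin.last s) := by
  rintro ⟨m', a', f, h⟩
  rw [ext_last] at h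
  cases h

end Exx

open Exx in
/-- Item Ex. -/
theorem pfEx : StEx := by
  intro ι
  refine ⟨⟨fun i => i.elim0, fun i => i.elim0, fun i => i.elim0, ?_, fun g hg => absurd hg (by simp)⟩,
    ?_⟩
  · refine le_of_eq (Nat.card_eq_zero.2 (Or.inl ⟨fun i => i.1.elim0⟩))
  · rintro s T 𝓕 ⟨c, hf, hn, hT, hF⟩
    refine ⟨?_, ?_, ?_, ?_⟩
    · intro e
      refine prov_ext T T 𝓕 c hf hn hT hF (.var e) _ (last_var c e) ?_ (Or.inl ⟨not_arb_var c e, le_rfl⟩)
      intro m a φ hφ h
      cases h
    · intro y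
      refine prov_ext T T 𝓕 c hf hn hT hF (.mon 0 (fun l => l.elim0) (fun _ => y) (fun _ _ _ => le_rfl))
        _ (fun x => last_mon c 0 _ _ _ x) ?_ (Or.inl ⟨not_arb_mon c _ _ _ _, le_rfl⟩)
      intro m a φ hφ h
      cases h
      omega
    · intro g hg h hh φ hφ
      obtain ⟨i, hi⟩ := hF g hg
      obtain ⟨j, hj⟩ := hF h hh
      have hmono : Monotone (fun y : Fin 2 → ℝ => φ (y 0) (y 1)) :=
        fun y y' hy => hφ _ _ _ _ (hy 0) (hy 1)
      refine prov_ext T T 𝓕 c hf hn hT hF (.mon 2 ![i, j] (fun y => φ (y 0) (y 1)) hmono)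
        _ (fun x => ?_) ?_ (Or.inl ⟨not_arb_mon c _ _ _ _, le_rfl⟩)
      · rw [last_mon]
        show φ (val c x i) (val c x j) = φ (g x) (h x)
        rw [hi, hj]
      · intro m a φ hφ h
        cases h
        exact le_rfl
    · intro g hg h01
      obtain ⟨j, hj⟩ := hF g hg
      refine prov_ext T (T + 1) 𝓕 c hf hn hT hF (.arb 1 (fun _ => j) (fun y => 1 - y 0))
        _ (fun x => ?_) ?_ (Or.inr ⟨⟨j, ext_last c _, fun x => ?_⟩, le_rfl⟩)
      · rw [last_arb]
        show 1 - val c x j = 1 - g x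
        rw [hj]
      · intro m a φ hφ h
        cases h
      · have h1 := val_aux c (.arb 1 (fun _ => j) (fun y => 1 - y 0)) x j.1 j.2
        have h2 := h01 x
        rw [← hj x, show val c x j = val c x ⟨j.1, j.2⟩ from rfl, ← h1] at h2
        exact h2

end Pool.Agent.RH
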