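import Pool.Agent.Work.MP_71c844_lc.RH.Stmts

set_option autoImplicit false

/-! Item RH Fn: every function has a circuit with few real gates -/

namespace Pool.Agent.RH

open Finset

namespace Fnx

section ren

variable {ι κ : Type}

/-- renaming of the variables of a gate -/
def renG (e : κ → ι) {n : ℕ} : Gate κ n → Gate ι n
  | .var i => .var (e i)
  | .mon m a φ h => .mon m a φ h
  | .arb m a f => .arb m a f

/-- renaming of the variables of a circuit -/
def ren (e : κ → ι) {s : ℕ} (c : Circuit κ s) : Circuit ι s := fun i => renG e (c i)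

lemma val_ren (e : κ → ι) {s : ℕ} (c : Circuit κ s) (x : ι → Bool) :
    ∀ (n : ℕ) (i : Fin s), i.1 = n → val (ren e c) x i = val c (fun k => x (e k)) i := by
  intro n
  induction n using Nat.strong_induction_on with
  | _ n ih =>
    intro i hi
    unfold val
    have hr : ren e c i = renG e (c i) := rfl
    rw [hr]
    cases h : c i with
    | var k => rfl
    | mon m a φ hφ =>
      simp only [renG]
      congr 1
      funext l
      exact ih (a l).1 (by have := (a l).2; omega) _ rfl
    | arb m a f =>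
      simp only [renG]
      congr 1
      funext l
      exact ih (a l).1 (by have := (a l).2; omega) _ rfl

lemma fanIn_ren (e : κ → ι) {s : ℕ} (c : Circuit κ s) (r : ℕ) (h : FanIn c r) :
    FanIn (ren e c) r := by
  intro i m a φ hφ hi
  have hr : ren e c i = renG e (c i) := rfl
  rw [hr] at hi
  cases hc : c i with
  | var k => rw [hc] at hi; simp [renG] at hi
  | mon m' a' φ' hφ' =>
    rw [hc] at hi
    simp only [renG, Gate.mon.injEq] at hi
    have := h i m' a' φ' hφ' hc
    omega
  | arb m' a' f' => rw [hc] at hi; simp [renG] at hi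

lemma arb_ren (e : κ → ι) {s : ℕ} (c : Circuit κ s) (i : Fin s) :
    Arb (ren e c) i ↔ Arb c i := by
  have hr : ren e c i = renG e (c i) := rfl
  unfold Arb
  rw [hr]
  constructor
  · rintro ⟨m, a, f, h⟩
    cases hc : c i with
    | var k => rw [hc] at h; simp [renG] at h
    | mon m' a' φ' hφ' => rw [hc] at h; simp [renG] at h
    | arb m' a' f' => exact ⟨m', a', f', rfl⟩
  · rintro ⟨m, a, f, h⟩
    rw [h]
    exact ⟨m, a, f, rfl⟩

lemma isNot_ren (e : κ → ι) {s : ℕ} (c : Circuit κ s) (i : Fin s) (h : IsNot c i) :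
    IsNot (ren e c) i := by
  obtain ⟨j, h1, h2⟩ := h
  refine ⟨j, ?_, ?_⟩
  · have hr : ren e c i = renG e (c i) := rfl
    rw [hr, h1]
    rfl
  · intro x
    rw [val_ren e c x j.1 ⟨j.1, j.2.trans i.2⟩ rfl]
    exact h2 _

end ren

section num

variable {n : ℕ}

/-- variable number `i` -/
noncomputable def gg (n i : ℕ) : (Fin n → Bool) → ℝ :=
  if h : i < n then fun x => if x ⟨i, h⟩ then 1 else 0 else fun _ => 0

/-- complement of variable number `i` -/
noncomputable def hh (n i : ℕ) : (Fin n → Bool) → ℝ :=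
  if h : i < n then fun x => if x ⟨i, h⟩ then 0 else 1 else fun _ => 0

/-- the number with the digits `x` -/
noncomputable def N (x : Fin n → Bool) : ℝ := ∑ i ∈ range n, 2 ^ i * gg n i x

/-- the number with the complementary digits -/
noncomputable def N' (x : Fin n → Bool) : ℝ := ∑ i ∈ range n, 2 ^ i * hh n i x

lemma N_add (x : Fin n → Bool) : N x + N' x = ∑ i ∈ range n, (2 : ℝ) ^ i := by
  unfold N N'
  rw [← Finset.sum_add_distrib]
  refine Finset.sum_congr rfl (fun i hi => ?_)
  have h : i < n := Finset.mem_range.mp hi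
  unfold gg hh
  rw [dif_pos h, dif_pos h]
  by_cases hx : x ⟨i, h⟩ = true
  · simp [hx]
  · simp [hx]

/-- the digits as a set -/
def st (x : Fin n → Bool) : Finset ℕ := (Finset.univ.filter fun i : Fin n => x i = true).map Fin.valEmbedding

lemma mem_st (x : Fin n → Bool) (i : Fin n) : i.1 ∈ st x ↔ x i = true := by
  unfold st
  rw [Finset.mem_map]
  constructor
  · rintro ⟨j, hj, hji⟩
    have : j = i := Fin.ext hji
    subst this
    simpa using hj
  · intro h
    exact ⟨i, by simpa using h, rfl⟩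

lemma N_eq (x : Fin n → Bool) : N x = ((∑ i ∈ st x, 2 ^ i : ℕ) : ℝ) := by
  unfold N st
  rw [Finset.sum_map, Finset.sum_filter, Finset.sum_range]
  push_cast
  refine Finset.sum_congr rfl (fun i _ => ?_)
  unfold gg
  rw [dif_pos i.2]
  by_cases hx : x i = true
  · simp [hx]
  · simp [hx]

lemma N_inj (x y : Fin n → Bool) (h : N x = N y) : x = y := by
  rw [N_eq, N_eq] at h
  have h1 : ∑ i ∈ st x, 2 ^ i = ∑ i ∈ st y, 2 ^ i := by exact_mod_cast h
  have h2 : st x = st y := Finset.geomSum_injective (n := 2) le_rfl h1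
  funext i
  have := mem_st x i
  rw [h2, mem_st y i] at this
  by_cases hx : x i = true
  · rw [hx, this.mpr hx]
  · have hy : ¬ y i = true := fun h => hx (this.mp h)
    simp only [Bool.not_eq_true] at hx hy
    rw [hx, hy]

open Classical in
/-- the last gate -/
noncomputable def ph (f : (Fin n → Bool) → Bool) (a c : ℝ) : ℝ :=
  if ∃ z, f z = true ∧ N z ≤ a ∧ N' z ≤ c then 1 else 0

lemma ph_mono (f : (Fin n → Bool) → Bool) (a b c d : ℝ) (h1 : a ≤ b) (h2 : c ≤ d) :
    ph f a c ≤ ph f b d := by
  unfold ph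
  by_cases h : ∃ z, f z = true ∧ N z ≤ a ∧ N' z ≤ c
  · have h' : ∃ z, f z = true ∧ N z ≤ b ∧ N' z ≤ d := by
      obtain ⟨z, hz, ha, hc⟩ := h
      exact ⟨z, hz, ha.trans h1, hc.trans h2⟩
    rw [if_pos h, if_pos h']
  · rw [if_neg h]
    split_ifs <;> norm_num

lemma ph_eq (f : (Fin n → Bool) → Bool) (x : Fin n → Bool) :
    ph f (N x) (N' x) = if f x = true then 1 else 0 := by
  unfold ph
  by_cases h : f x = true
  · rw [if_pos h, if_pos ⟨x, h, le_rfl, le_rfl⟩]
  · rw [if_neg h, if_neg]
    rintro ⟨z, hz, h1, h2⟩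
    have e1 := N_add z
    have e2 := N_add x
    have : N z = N x := by linarith
    rw [N_inj z x this] at hz
    exact h hz

end num

end Fnx

open Fnx in
/-- item Fn -/
theorem pfFn : StEx → StSu → StCp → StFn := by
  intro hEx hSu hCp ι _ f
  classical
  set n := Fintype.card ι with hn
  let e : ι ≃ Fin n := Fintype.equivFin ι
  -- the function on `Fin n`
  let f' : (Fin n → Bool) → Bool := fun y => f (fun i => y (e i))
  have h0 := hCp n
  have h1 := hSu (Fin n) _ _ _ h0 n (gg n) (fun i => 2 ^ i) (by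
    intro i hi
    left
    exact ⟨⟨i, hi⟩, by unfold gg; rw [dif_pos hi]⟩) (fun i => by positivity)
  have h2 := hSu (Fin n) _ _ _ h1 n (hh n) (fun i => 2 ^ i) (by
    intro i hi
    left
    right
    exact ⟨⟨i, hi⟩, by unfold hh; rw [dif_pos hi]⟩) (fun i => by positivity)
  have h3 := ((hEx (Fin n)).2 _ _ _ h2).2.2.1 (fun x => N x)
    (Or.inl (Or.inr ⟨n, le_rfl, rfl⟩)) (fun x => N' x) (Or.inr ⟨n, le_rfl, rfl⟩) (ph f')
    (ph_mono f')
  have hs : 9 * n + 7 + n + 1 + n + 1 + 1 = 11 * n + 10 := by ring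
  rw [hs] at h3
  obtain ⟨c, hc1, hc2, hc3, hc4⟩ := h3
  obtain ⟨o, ho⟩ := hc4 _ (Set.mem_insert _ _)
  refine ⟨ren e.symm c, o, fanIn_ren _ _ _ hc1, ?_, ?_, ?_⟩
  · intro i hi
    exact isNot_ren _ _ _ (hc2 i ((arb_ren _ _ _).mp hi))
  · have : Nat.card {i // Arb (ren e.symm c) i} = Nat.card {i // Arb c i} := by
      refine Nat.card_congr (Equiv.subtypeEquivRight (fun i => arb_ren _ _ _))
    rw [this]
    exact hc3
  · intro x
    rw [val_ren e.symm c x o.1 o rfl, ho]
    show ph f' (N _) (N' _) = _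
    rw [ph_eq]
    have : f' (fun k => x (e.symm k)) = f x := by
      show f _ = f x
      congr 1
      funext i
      simp
    rw [this]

end Pool.Agent.RH
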