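import Pool.Agent.Work.MP_71c844_lc.RH.Stmts

/-!
# Block RH, item Qd: the queries satisfy the dichotomy
-/

set_option autoImplicit false

namespace Pool.Agent.RH

open Finset
open Pool.Agent.NegLim (Tn miss Closed lowSets minMembers trim Dich)
open Pool.Agent.Rec82 (Sun)
open Pool.Agent.LayCirc (inp)

namespace Qdx

theorem inp_le {E : Type} [Fintype E] [DecidableEq E] {ι : Type} (π : ι → Bool ⊕ E)
    {x y : Finset E} (h : x ⊆ y) : inp π x ≤ inp π y := by
  intro e
  unfold inp NegLim.pull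
  rcases π e with b | e'
  · exact le_refl b
  · by_cases hx : e' ∈ x
    · simp [h hx]
    · simp [hx]

end Qdx

/-- item **Qd** -/
theorem pfQd : StDp → StMo → StQp → StQd := by
  intro hDp hMo hQp E _ _ U _ _ b t r ℓ K R q Y ht hr hrt hℓ hq hY ι s c o h π hfan hs
  refine hDp E U b t r ℓ K R q Y ht hr hrt hℓ hq hY (2 * s + 1)
    (fun X => qry c o h (inp π X)) hs ?_ ?_
  · intro x y hxy hx
    have hle := Qdx.inp_le π hxy
    have hq : ∀ X : ι → Bool, qry c o h X = true ↔
        (0 < fval c h X o ∨ ∃ j, Fed c j ∧ h j < fval c h X j) := by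
      intro X
      unfold qry
      simp
    rcases (hq _).1 hx with h1 | ⟨j, h1, h2⟩
    · exact (hq _).2 (Or.inl (h1.trans_le (hMo ι s c h _ _ hle o)))
    · exact (hq _).2 (Or.inr ⟨j, h1, h2.trans_le (hMo ι s c h _ _ hle j)⟩)
  · intro x
    obtain ⟨F, hF, hFz⟩ := hQp E ι s r c o h π x hr hfan
    refine ⟨F, hF, 2 * s, Nat.lt_succ_self _, fun z => ?_⟩
    rw [hFz z]
    split_ifs with h1
    · exact ⟨fun _ => h1, fun _ => le_rfl⟩
    · exact ⟨fun h2 => absurd h2 (by norm_num), fun h2 => absurd h2 h1⟩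

end Pool.Agent.RH
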