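import Pool.Agent.Work.MP_71c844_lc.RH.Stmts

/-!
Block RH, item Qp: the query is a program with `2 s + 1` instructions.
-/

namespace Pool.Agent.RH

open Finset
open Pool.Agent.NegLim (Tn miss Closed lowSets minMembers trim Dich)
open Pool.Agent.LayCirc (inp)

namespace Qpx

variable {ι : Type} {s : ℕ}

lemma fval_var (c : Circuit ι s) (h : Fin s → ℝ) (x : ι → Bool) (i : Fin s) (e : ι)
    (hc : c i = .var e) : fval c h x i = if x e then 1 else 0 := by
  rw [fval, hc]

lemma fval_mon (c : Circuit ι s) (h : Fin s → ℝ) (x : ι → Bool) (i : Fin s)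
    (m : ℕ) (a : Fin m → Fin i.1) (φ : (Fin m → ℝ) → ℝ) (hφ : Monotone φ)
    (hc : c i = .mon m a φ hφ) : fval c h x i =
      φ fun l => fval c h x ⟨(a l).1, (a l).2.trans i.2⟩ := by
  rw [fval, hc]

lemma fval_arb (c : Circuit ι s) (h : Fin s → ℝ) (x : ι → Bool) (i : Fin s)
    (m : ℕ) (a : Fin m → Fin i.1) (f : (Fin m → ℝ) → ℝ)
    (hc : c i = .arb m a f) : fval c h x i = f fun l => h ⟨(a l).1, (a l).2.trans i.2⟩ := by
  rw [fval, hc]

/-- The frozen values, extended by `0`. -/
noncomputable def Vv {E : Type} [DecidableEq E] (c : Circuit ι s) (h : Fin s → ℝ)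
    (π : ι → Bool ⊕ E) (x : Finset E) (i : ℕ) (z : Finset E) : ℝ :=
  if hi : i < s then fval c h (inp π (x ∪ z)) ⟨i, hi⟩ else 0

open Classical in
/-- One step of the disjunction. -/
noncomputable def ph (c : Circuit ι s) (h : Fin s → ℝ) (k : ℕ) (a b : ℝ) : ℝ :=
  if ∃ hk : k < s, Fed c ⟨k, hk⟩ ∧ h ⟨k, hk⟩ < b then max a 1 else a

lemma ph_mono (c : Circuit ι s) (h : Fin s → ℝ) (k : ℕ) (a b a' b' : ℝ) (h1 : a ≤ b)
    (h2 : a' ≤ b') : ph c h k a a' ≤ ph c h k b b' := by
  unfold ph
  by_cases h3 : ∃ hk : k < s, Fed c ⟨k, hk⟩ ∧ h ⟨k, hk⟩ < a'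
  · have h4 : ∃ hk : k < s, Fed c ⟨k, hk⟩ ∧ h ⟨k, hk⟩ < b' := by
      obtain ⟨hk, hf, hlt⟩ := h3
      exact ⟨hk, hf, hlt.trans_le h2⟩
    rw [if_pos h3, if_pos h4]
    exact max_le_max h1 le_rfl
  · rw [if_neg h3]
    split_ifs
    · exact h1.trans (le_max_left _ _)
    · exact h1

/-- The accumulated disjunction. -/
noncomputable def Tt {E : Type} [DecidableEq E] (c : Circuit ι s) (o : Fin s) (h : Fin s → ℝ)
    (π : ι → Bool ⊕ E) (x : Finset E) : ℕ → Finset E → ℝ
  | 0, z => if 0 < Vv c h π x o.1 z then 1 else 0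
  | k + 1, z => ph c h k (Tt c o h π x k z) (Vv c h π x k z)

open Classical in
lemma Tt_eq {E : Type} [DecidableEq E] (c : Circuit ι s) (o : Fin s) (h : Fin s → ℝ)
    (π : ι → Bool ⊕ E) (x z : Finset E) (k : ℕ) : Tt c o h π x k z =
      if (0 < Vv c h π x o.1 z ∨ ∃ j : Fin s, j.1 < k ∧ Fed c j ∧ h j < Vv c h π x j.1 z)
        then 1 else 0 := by
  induction k with
  | zero =>
    rw [Tt]
    by_cases h1 : 0 < Vv c h π x o.1 z
    · rw [if_pos h1, if_pos (Or.inl h1)]
    · rw [if_neg h1, if_neg]
      rintro (h2 | ⟨j, hj, _⟩)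
      · exact h1 h2
      · exact absurd hj (Nat.not_lt_zero _)
  | succ k ih =>
    rw [Tt, ih]
    unfold ph
    by_cases h1 : (0 < Vv c h π x o.1 z ∨ ∃ j : Fin s, j.1 < k ∧ Fed c j ∧
        h j < Vv c h π x j.1 z)
    · have h2 : (0 < Vv c h π x o.1 z ∨ ∃ j : Fin s, j.1 < k + 1 ∧ Fed c j ∧
          h j < Vv c h π x j.1 z) := by
        rcases h1 with h1 | ⟨j, hj, hj2⟩
        · exact Or.inl h1
        · exact Or.inr ⟨j, hj.trans (Nat.lt_succ_self k), hj2⟩
      rw [if_pos h1, if_pos h2, max_self, ite_self]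
    · rw [if_neg h1]
      by_cases h3 : ∃ hk : k < s, Fed c ⟨k, hk⟩ ∧ h ⟨k, hk⟩ < Vv c h π x k z
      · have h2 : (0 < Vv c h π x o.1 z ∨ ∃ j : Fin s, j.1 < k + 1 ∧ Fed c j ∧
            h j < Vv c h π x j.1 z) := by
          obtain ⟨hk, h4⟩ := h3
          exact Or.inr ⟨⟨k, hk⟩, Nat.lt_succ_self k, h4⟩
        rw [if_pos h3, if_pos h2]
        exact max_eq_right zero_le_one
      · have h2 : ¬ (0 < Vv c h π x o.1 z ∨ ∃ j : Fin s, j.1 < k + 1 ∧ Fed c j ∧
            h j < Vv c h π x j.1 z) := by
          rintro (h4 | ⟨j, hj, hj2⟩)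
          · exact h1 (Or.inl h4)
          · rcases Nat.lt_succ_iff_lt_or_eq.1 hj with h5 | h5
            · exact h1 (Or.inr ⟨j, h5, hj2⟩)
            · apply h3
              subst h5
              exact ⟨j.2, hj2⟩
        rw [if_neg h3, if_neg h2]

/-- The program. -/
noncomputable def FF {E : Type} [DecidableEq E] (c : Circuit ι s) (o : Fin s) (h : Fin s → ℝ)
    (π : ι → Bool ⊕ E) (x : Finset E) (i : ℕ) (z : Finset E) : ℝ :=
  if i < s then Vv c h π x i z else Tt c o h π x (i - s) z

/-- An instruction which is a constant. -/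
lemma constI {E : Type} (r : ℕ) (F : ℕ → Finset E → ℝ) (i : ℕ) (y : ℝ)
    (hF : ∀ z, F i z = y) :
    ∃ (m : ℕ) (φ : (Fin m → ℝ) → ℝ), Cert (2 * r) φ ∧ ∃ a : Fin m → ℕ, (∀ l, a l < i) ∧
      ∀ z, F i z = φ (fun l => F (a l) z) :=
  ⟨0, fun _ => y, fun _ => ⟨∅, by simp, fun _ _ => le_rfl⟩, fun l => l.elim0, fun l => l.elim0, hF⟩

/-- An instruction which is a function of two earlier ones. -/
lemma twoI {E : Type} (r : ℕ) (hr : 1 ≤ r) (F : ℕ → Finset E → ℝ) (i : ℕ) (f : ℝ → ℝ → ℝ)
    (hf : ∀ a b a' b', a ≤ b → a' ≤ b' → f a a' ≤ f b b') (j k : ℕ) (hj : j < i) (hk : k < i)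
    (hF : ∀ z, F i z = f (F j z) (F k z)) :
    ∃ (m : ℕ) (φ : (Fin m → ℝ) → ℝ), Cert (2 * r) φ ∧ ∃ a : Fin m → ℕ, (∀ l, a l < i) ∧
      ∀ z, F i z = φ (fun l => F (a l) z) := by
  refine ⟨2, fun y => f (y 0) (y 1), fun y => ⟨univ, ?_, fun y' h =>
    hf _ _ _ _ (h 0 (mem_univ _)) (h 1 (mem_univ _))⟩, ![j, k], ?_, hF⟩
  · rw [Finset.card_univ, Fintype.card_fin]
    omega
  intro l
  fin_cases l
  · exact hj
  · exact hk

end Qpx

open Qpx in
/-- [RH Qp] The query is a program with `2 s + 1` instructions. -/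
theorem pfQp : StQp := by
  intro E _ _ ι s r c o h π x hr hfan
  classical
  refine ⟨FF c o h π x, ?_, ?_⟩
  · intro i hi
    rcases lt_or_ge i s with his | his
    · have hF : ∀ z : Finset E, (if i < s then Vv c h π x i z else Tt c o h π x (i - s) z) =
          fval c h (inp π (x ∪ z)) ⟨i, his⟩ := by
        intro z
        rw [if_pos his]
        unfold Vv
        rw [dif_pos his]
      cases hc : c ⟨i, his⟩ with
      | var e =>
        cases hπ : π e with
        | inl b =>
          right
          refine constI r (FF c o h π x) i (if b then 1 else 0) fun z => ?_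
          show (if i < s then Vv c h π x i z else Tt c o h π x (i - s) z) = _
          rw [hF, fval_var c h _ _ e hc]
          have : inp π (x ∪ z) e = b := by
            simp [Pool.Agent.LayCirc.inp, Pool.Agent.NegLim.pull, hπ]
          rw [this]
        | inr e' =>
          have hv : ∀ z, inp π (x ∪ z) e = decide (e' ∈ x ∪ z) := by
            intro z
            simp [Pool.Agent.LayCirc.inp, Pool.Agent.NegLim.pull, hπ]
          by_cases hx : e' ∈ x
          · right
            refine constI r (FF c o h π x) i 1 fun z => ?_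
            show (if i < s then Vv c h π x i z else Tt c o h π x (i - s) z) = _
            rw [hF, fval_var c h _ _ e hc, hv]
            rw [if_pos]
            exact decide_eq_true (Finset.mem_union_left _ hx)
          · left
            refine ⟨e', fun z => ?_⟩
            show (if i < s then Vv c h π x i z else Tt c o h π x (i - s) z) = _
            rw [hF, fval_var c h _ _ e hc, hv]
            simp [hx]
      | mon m a φ hφ =>
        right
        refine ⟨m, φ, hfan _ m a φ hφ hc, fun l => (a l).1, fun l => (a l).2, fun z => ?_⟩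
        show (if i < s then Vv c h π x i z else Tt c o h π x (i - s) z) =
          φ fun l => (if (a l).1 < s then Vv c h π x (a l).1 z else Tt c o h π x ((a l).1 - s) z)
        rw [hF, fval_mon c h _ _ m a φ hφ hc]
        congr 1
        funext l
        have hl : (a l).1 < s := (a l).2.trans his
        rw [if_pos hl]
        unfold Vv
        rw [dif_pos hl]
      | arb m a f =>
        right
        refine constI r (FF c o h π x) i (f fun l => h ⟨(a l).1, (a l).2.trans his⟩) fun z => ?_
        show (if i < s then Vv c h π x i z else Tt c o h π x (i - s) z) = _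
        rw [hF, fval_arb c h _ _ m a f hc]
    · right
      rcases his.eq_or_lt with hs | hs
      · subst hs
        refine twoI r hr (FF c o h π x) s (fun a _ => if 0 < a then 1 else 0) ?_ o.1 o.1 o.2 o.2 fun z => ?_
        · intro a b _ _ hab _
          show (if 0 < a then (1 : ℝ) else 0) ≤ if 0 < b then 1 else 0
          by_cases h1 : 0 < a
          · rw [if_pos h1, if_pos (h1.trans_le hab)]
          · rw [if_neg h1]
            split_ifs
            · exact zero_le_one
            · exact le_rfl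
        · show (if s < s then Vv c h π x s z else Tt c o h π x (s - s) z) =
            if 0 < (if o.1 < s then Vv c h π x o.1 z else Tt c o h π x (o.1 - s) z) then 1 else 0
          rw [if_neg (lt_irrefl s), if_pos o.2, Nat.sub_self, Tt]
      · obtain ⟨k, rfl⟩ : ∃ k, i = s + 1 + k := ⟨i - (s + 1), by omega⟩
        have hk : k < s := by omega
        refine twoI r hr (FF c o h π x) (s + 1 + k) (ph c h k)
          (fun a b a' b' h1 h2 => ph_mono c h k a b a' b' h1 h2) (s + k) k (by omega)
          (by omega) fun z => ?_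
        show (if s + 1 + k < s then Vv c h π x (s + 1 + k) z else
            Tt c o h π x (s + 1 + k - s) z) =
          ph c h k (if s + k < s then Vv c h π x (s + k) z else Tt c o h π x (s + k - s) z)
            (if k < s then Vv c h π x k z else Tt c o h π x (k - s) z)
        rw [if_neg (by omega), if_neg (by omega), if_pos hk]
        have e1 : s + 1 + k - s = k + 1 := by omega
        have e2 : s + k - s = k := by omega
        rw [e1, e2, Tt]
  · intro z
    show (if 2 * s < s then Vv c h π x (2 * s) z else Tt c o h π x (2 * s - s) z) = _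
    have e1 : 2 * s - s = s := by omega
    rw [if_neg (by omega), e1, Tt_eq]
    have hV : ∀ j : Fin s, Vv c h π x j.1 z = fval c h (inp π (x ∪ z)) j := by
      intro j
      unfold Vv
      rw [dif_pos j.2]
    refine if_congr ?_ rfl rfl
    unfold qry
    rw [decide_eq_true_iff, hV o]
    constructor
    · rintro (h1 | ⟨j, _, h2, h3⟩)
      · exact Or.inl h1
      · exact Or.inr ⟨j, h2, by rw [← hV j]; exact h3⟩
    · rintro (h1 | ⟨j, h2, h3⟩)
      · exact Or.inl h1
      · exact Or.inr ⟨j, j.2, h2, by rw [hV j]; exact h3⟩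

end Pool.Agent.RH
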