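import Pool.Agent.Work.MP_71c844_lc.RH.Stmts

/-!
Block RH (real gates of large fan-in), item St: one approximation step for a decreasing
one-parameter family, trimmed at `t`.
-/

namespace Pool.Agent.RH

open Finset
open Pool.Agent.NegLim (Tn miss miss_mono Closed lowSets minMembers mem_minMembers
  exists_minMember trim Dich Tn_sum)
open Pool.Agent.Rec82 (Sun)
open Pool.Agent.RG (cl link chainMin StCl StLk StCh StPl Scale)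

namespace Stx

set_option linter.unusedSectionVars false

variable {E : Type} [Fintype E] [DecidableEq E]

open Classical in
/-- the members of the family -/
noncomputable def fam (𝒰 : ℝ → Finset (Finset E)) : Finset (Finset (Finset E)) :=
  univ.filter (fun 𝒲 => ∃ r, 𝒰 r = 𝒲)

theorem mem_fam {𝒰 : ℝ → Finset (Finset E)} {𝒲 : Finset (Finset E)} :
    𝒲 ∈ fam 𝒰 ↔ ∃ r, 𝒰 r = 𝒲 := by
  classical
  simp [fam]

theorem fam_chain {𝒰 : ℝ → Finset (Finset E)} (h : ∀ r r', r ≤ r' → 𝒰 r' ⊆ 𝒰 r)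
    {𝒱 𝒲 : Finset (Finset E)} (h1 : 𝒱 ∈ fam 𝒰) (h2 : 𝒲 ∈ fam 𝒰) : 𝒱 ⊆ 𝒲 ∨ 𝒲 ⊆ 𝒱 := by
  obtain ⟨r, rfl⟩ := mem_fam.1 h1
  obtain ⟨r', rfl⟩ := mem_fam.1 h2
  rcases le_total r r' with hr | hr
  · exact Or.inr (h _ _ hr)
  · exact Or.inl (h _ _ hr)

theorem card_fam {b : ℕ} {𝒰 : ℝ → Finset (Finset E)} (h : ∀ r r', r ≤ r' → 𝒰 r' ⊆ 𝒰 r)
    (hl : ∀ r, 𝒰 r ⊆ lowSets E b) : (fam 𝒰).card ≤ (lowSets E b).card + 1 := by
  have h1 : (fam 𝒰).card ≤ (Finset.range ((lowSets E b).card + 1)).card := by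
    refine Finset.card_le_card_of_injOn Finset.card ?_ ?_
    · intro 𝒲 h𝒲
      obtain ⟨r, rfl⟩ := mem_fam.1 (Finset.mem_coe.1 h𝒲)
      rw [Finset.mem_coe, Finset.mem_range]
      exact Nat.lt_succ_of_le (Finset.card_le_card (hl r))
    · intro 𝒱 h𝒱 𝒲 h𝒲 he
      rcases fam_chain h (Finset.mem_coe.1 h𝒱) (Finset.mem_coe.1 h𝒲) with hs | hs
      · exact Finset.eq_of_subset_of_card_le hs he.ge
      · exact (Finset.eq_of_subset_of_card_le hs he.le).symm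
  rwa [Finset.card_range] at h1

end Stx

open Classical in
theorem pfSt : StCl → StLk → StCh → StPl → StSt := by
  intro hCl hLk hCh hPl E _ _ U _ δ L b t B q ε Y S 𝒰 hanti hlow
  have hcl := fun 𝒱 (h : 𝒱 ⊆ lowSets E b) => hCl E δ L b ε S.h0 S.h1 S.hε 𝒱 h
  have hfl : ∀ 𝒲 ∈ Stx.fam 𝒰, 𝒲 ⊆ lowSets E b := by
    intro 𝒲 h
    obtain ⟨r, rfl⟩ := Stx.mem_fam.1 h
    exact hlow r
  set 𝒞 : Finset (Finset (Finset E)) := (Stx.fam 𝒰).image (cl δ L b ε) with h𝒞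
  have hchain : ∀ 𝒱 ∈ 𝒞, ∀ 𝒲 ∈ 𝒞, 𝒱 ⊆ 𝒲 ∨ 𝒲 ⊆ 𝒱 := by
    intro 𝒱 h𝒱 𝒲 h𝒲
    obtain ⟨𝒱', h1, rfl⟩ := Finset.mem_image.1 h𝒱
    obtain ⟨𝒲', h2, rfl⟩ := Finset.mem_image.1 h𝒲
    rcases Stx.fam_chain hanti h1 h2 with hs | hs
    · exact Or.inl ((hcl 𝒱' (hfl _ h1)).2.2.2.2 𝒲' (hfl _ h2) hs)
    · exact Or.inr ((hcl 𝒲' (hfl _ h2)).2.2.2.2 𝒱' (hfl _ h1) hs)
  have hlink : ∀ 𝒱 ∈ 𝒞, ∀ (S : Finset E) (i : ℕ), S.card + i ≤ 2 * b →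
      ((link 𝒱 S i).card : ℝ) ≤ B ^ i := by
    intro 𝒱 h𝒱 S' i hi
    obtain ⟨𝒱', h1, rfl⟩ := Finset.mem_image.1 h𝒱
    exact hLk E δ L b B ε S.h0 S.h1 S.sun _ (hcl 𝒱' (hfl _ h1)).2.2.1 S' i hi
  have hcard : ∀ j ≤ 2 * b, ((chainMin 𝒞 j).card : ℝ) ≤ (2 * B) ^ j :=
    hCh E 𝒞 hchain b B S.hB hlink
  have hB2 : 0 < 2 * B := by have := S.hB; linarith
  have hcount := hPl E U b (2 * B) q hB2 S.hq S.hBq Y (fun A hA => S.hY A hA)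
    (chainMin 𝒞) (fun j A hA => by
      unfold chainMin at hA
      rw [Finset.mem_filter] at hA
      exact hA.2.1) hcard (t + 1)
  refine ⟨fun r => trim t (cl δ L b ε (𝒰 r)),
    univ.filter (fun u => ∃ r, (∃ A ∈ cl δ L b ε (𝒰 r), A ⊆ Y u) ∧
      ¬ ∃ A ∈ trim t (cl δ L b ε (𝒰 r)), A ⊆ Y u),
    fun z => ∑ 𝒲 ∈ Stx.fam 𝒰, (miss 𝒲 z - miss (cl δ L b ε 𝒲) z), ?_, ?_, ?_, ?_, ?_, ?_⟩
  · intro r A hA
    simp only [trim, Finset.mem_filter] at hA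
    exact hA.2
  · refine le_trans ?_ hcount
    have hsub : (univ.filter (fun u => ∃ r, (∃ A ∈ cl δ L b ε (𝒰 r), A ⊆ Y u) ∧
        ¬ ∃ A ∈ trim t (cl δ L b ε (𝒰 r)), A ⊆ Y u)) ⊆
        (univ.filter (fun u => ∃ j, t + 1 ≤ j ∧ j ≤ 2 * b ∧ ∃ A ∈ chainMin 𝒞 j, A ⊆ Y u)) := by
      intro u hu
      rw [Finset.mem_filter] at hu ⊢
      obtain ⟨-, r, ⟨A, hA, hAu⟩, hno⟩ := hu
      obtain ⟨A', hA', hmin⟩ := exists_minMember hA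
      have hm := mem_minMembers.1 hmin
      refine ⟨mem_univ _, A'.card, ?_, ?_, A', ?_, hA'.trans hAu⟩
      · by_contra hcon
        apply hno
        refine ⟨A', ?_, hA'.trans hAu⟩
        rw [trim, Finset.mem_filter]
        exact ⟨hm.1, by omega⟩
      · have := (hcl (𝒰 r) (hlow r)).2.1 hm.1
        rw [lowSets, Finset.mem_filter] at this
        exact this.2
      · unfold chainMin
        rw [Finset.mem_filter]
        refine ⟨mem_univ _, rfl, cl δ L b ε (𝒰 r),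
          Finset.mem_image.2 ⟨𝒰 r, Stx.mem_fam.2 ⟨r, rfl⟩, rfl⟩, hm.1, ?_⟩
        intro A'' hss hA''
        have := hm.2.2 A'' hA'' hss.subset
        exact hss.ne this
    exact_mod_cast Finset.card_le_card hsub
  · intro z
    refine Finset.sum_nonneg fun 𝒲 h𝒲 => ?_
    have := miss_mono (hcl 𝒲 (hfl 𝒲 h𝒲)).1 z
    linarith
  · have e1 : Tn δ L (fun z => ∑ 𝒲 ∈ Stx.fam 𝒰, (miss 𝒲 z - miss (cl δ L b ε 𝒲) z)) ∅ =
        ∑ 𝒲 ∈ Stx.fam 𝒰, Tn δ L (fun z => miss 𝒲 z - miss (cl δ L b ε 𝒲) z) ∅ :=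
      Tn_sum (Stx.fam 𝒰) (fun 𝒲 z => miss 𝒲 z - miss (cl δ L b ε 𝒲) z) L ∅
    rw [e1]
    have hε := S.hε
    calc ∑ 𝒲 ∈ Stx.fam 𝒰, Tn δ L (fun z => miss 𝒲 z - miss (cl δ L b ε 𝒲) z) ∅
        ≤ ∑ _𝒲 ∈ Stx.fam 𝒰, ((lowSets E b).card : ℝ) * ε :=
          Finset.sum_le_sum fun 𝒲 h𝒲 => (hcl 𝒲 (hfl 𝒲 h𝒲)).2.2.2.1
      _ = ((Stx.fam 𝒰).card : ℝ) * (((lowSets E b).card : ℝ) * ε) := by
          rw [Finset.sum_const, nsmul_eq_mul]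
      _ ≤ (((lowSets E b).card : ℝ) + 1) * (((lowSets E b).card : ℝ) * ε) := by
          have h1 : ((Stx.fam 𝒰).card : ℝ) ≤ ((lowSets E b).card : ℝ) + 1 := by
            exact_mod_cast Stx.card_fam hanti hlow
          gcongr
  · intro u hu r hex
    rw [Finset.mem_filter] at hu
    push Not at hu
    obtain ⟨A, hA, hAu⟩ := hex
    exact hu (mem_univ _) r ⟨A, (hcl (𝒰 r) (hlow r)).1 hA, hAu⟩
  · intro z r ⟨A, hA, hAz⟩ hno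
    have e1 : miss (𝒰 r) z = 1 := by unfold miss; rw [if_neg hno]
    have e2 : miss (cl δ L b ε (𝒰 r)) z = 0 := by
      unfold miss; rw [if_pos]
      simp only [trim, Finset.mem_filter] at hA
      exact ⟨A, hA.1, hAz⟩
    have e3 : miss (𝒰 r) z - miss (cl δ L b ε (𝒰 r)) z ≤
        ∑ 𝒲 ∈ Stx.fam 𝒰, (miss 𝒲 z - miss (cl δ L b ε 𝒲) z) := by
      refine Finset.single_le_sum (f := fun 𝒲 => miss 𝒲 z - miss (cl δ L b ε 𝒲) z)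
        (fun 𝒲 h𝒲 => ?_) (Stx.mem_fam.2 ⟨r, rfl⟩)
      have := miss_mono (hcl 𝒲 (hfl 𝒲 h𝒲)).1 z
      linarith
    rw [e1, e2] at e3
    simp only
    linarith

end Pool.Agent.RH
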