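import Pool.Agent.Work.MP_71c844_lc.RH.Stmts

/-!
# Block RH, item Su: partial sums
-/

set_option autoImplicit false

namespace Pool.Agent.RH

open Finset

theorem pfSu : StEx → StSu := by
  intro hEx ι s T 𝓕 hP m g w
  induction m with
  | zero =>
    intro _ _
    have h1 := ((hEx ι).2 s T 𝓕 hP).2.1 0
    have e : 𝓕 ∪ {h | ∃ j ≤ 0, h = fun x => ∑ i ∈ range j, w i * g i x} =
        insert (fun _ => (0 : ℝ)) 𝓕 := by
      ext h
      simp only [Set.mem_union, Set.mem_setOf_eq, Set.mem_insert_iff]
      constructor
      · rintro (h2 | ⟨j, hj, rfl⟩)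
        · exact Or.inr h2
        · left
          have hj0 : j = 0 := Nat.le_zero.1 hj
          subst hj0
          funext x
          exact Finset.sum_range_zero _
      · rintro (rfl | h2)
        · exact Or.inr ⟨0, le_refl _, by funext x; exact (Finset.sum_range_zero _).symm⟩
        · exact Or.inl h2
    rw [e]
    exact h1
  | succ m ih =>
    intro hg hw
    have h1 := ih (fun i hi => hg i (Nat.lt_succ_of_lt hi)) hw
    have h2 := ((hEx ι).2 _ T _ h1).2.2.1 (fun x => ∑ i ∈ range m, w i * g i x)
      (Or.inr ⟨m, le_refl _, rfl⟩) (g m) (Or.inl (hg m (Nat.lt_succ_self m)))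
      (fun a c => a + w m * c)
      (fun a b c d hab hcd => add_le_add hab (mul_le_mul_of_nonneg_left hcd (hw m)))
    have e : 𝓕 ∪ {h | ∃ j ≤ m + 1, h = fun x => ∑ i ∈ range j, w i * g i x} =
        insert (fun x => (∑ i ∈ range m, w i * g i x) + w m * g m x)
          (𝓕 ∪ {h | ∃ j ≤ m, h = fun x => ∑ i ∈ range j, w i * g i x}) := by
      ext h
      simp only [Set.mem_union, Set.mem_setOf_eq, Set.mem_insert_iff]
      constructor
      · rintro (h2 | ⟨j, hj, rfl⟩)
        · exact Or.inr (Or.inl h2)
        · rcases Nat.lt_or_ge m j with hj' | hj'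
          · left
            have hjm : j = m + 1 := by omega
            subst hjm
            funext x
            exact Finset.sum_range_succ _ _
          · exact Or.inr (Or.inr ⟨j, hj', rfl⟩)
      · rintro (rfl | h2 | ⟨j, hj, rfl⟩)
        · exact Or.inr ⟨m + 1, le_refl _, by funext x; exact (Finset.sum_range_succ _ _).symm⟩
        · exact Or.inl h2
        · exact Or.inr ⟨j, by omega, rfl⟩
    rw [e]
    exact h2

end Pool.Agent.RH
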