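import Pool.Agent.Work.MP_71c844_lc.EV.All
import Pool.Agent.Work.MP_71c844_lc.RH.Rec
import Pool.Agent.Work.MP_71c844_lc.RH.Var
import Pool.Agent.Work.MP_71c844_lc.RG.I_Cl
import Pool.Agent.Work.MP_71c844_lc.RG.I_Lk
import Pool.Agent.Work.MP_71c844_lc.RG.I_Ch
import Pool.Agent.Work.MP_71c844_lc.RG.I_Pl
import Pool.Agent.Work.MP_71c844_lc.RH.I_St
import Pool.Agent.Work.MP_71c844_lc.RH.I_Ap
import Pool.Agent.Work.MP_71c844_lc.RH.I_Dc
import Pool.Agent.Work.MP_71c844_lc.RH.I_Dp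
import Pool.Agent.Work.MP_71c844_lc.RH.I_Mo
import Pool.Agent.Work.MP_71c844_lc.RH.I_Fz
import Pool.Agent.Work.MP_71c844_lc.RH.I_Pc
import Pool.Agent.Work.MP_71c844_lc.RH.I_Qp
import Pool.Agent.Work.MP_71c844_lc.RH.I_Qd
import Pool.Agent.Work.MP_71c844_lc.RH.I_Ex
import Pool.Agent.Work.MP_71c844_lc.RH.I_Su
import Pool.Agent.Work.MP_71c844_lc.RH.I_Bt
import Pool.Agent.Work.MP_71c844_lc.RH.I_Cp
import Pool.Agent.Work.MP_71c844_lc.RH.I_Fn

/-!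
# Block RH: assembly of the items
-/

namespace Pool.Agent.RH

open Finset

theorem allQd : StQd :=
  pfQd (pfDp (pfDc (pfAp (pfSt RG.pfCl RG.pfLk RG.pfCh RG.pfPl)))) pfMo pfQp

theorem allPc : StPc := pfPc pfMo pfFz

theorem allFn : StFn := pfFn pfEx (pfSu pfEx) (pfCp pfEx (pfSu pfEx) (pfBt pfEx))

/-- `Pr[right] - Pr[wrong]` -/
lemma adv_eq' {v a s : ℕ} {D : (Sym2 (Fin v) → Bool) → ℝ} (h : ∑ x, D x = 1)
    (c : GraphCircuit v a s) (o : Fin s) (k : ℕ) :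
    1 - 2 * ∑ x, D x * AV.er (∀ y, 0 < val c (withGuess x y) o) (AV.Clq v k x) = adv D c o k := by
  classical
  rw [AV.adv_eq h]
  unfold adv Right
  refine Finset.sum_congr rfl fun x _ => ?_
  congr 2

/-- There is a sequence with the largest number of patterns among the sequences with a property
which constant sequences have. -/
lemma exists_seq {v a s : ℕ} (c : GraphCircuit v a s) (p : (ℕ → (Sym2 (Fin v) → Bool)) → Prop)
    (hp : p fun _ _ => true) :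
    ∃ x, p x ∧ ∀ z, p z → numPatterns c z ≤ numPatterns c x := by
  have hfin : (Set.range fun z : Sym2 (Fin v) → Bool =>
      pattern c (withGuess z fun _ => false)).Finite := Set.finite_range _
  let A : Set ℕ := {n | ∃ x, p x ∧ numPatterns c x = n}
  have hA1 : A.Nonempty := ⟨_, fun _ _ => true, hp, rfl⟩
  have hA2 : BddAbove A := by
    refine ⟨(Set.range fun z : Sym2 (Fin v) → Bool =>
      pattern c (withGuess z fun _ => false)).ncard, ?_⟩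
    rintro n ⟨x, _, rfl⟩
    refine Set.ncard_le_ncard ?_ hfin
    rintro _ ⟨i, rfl⟩
    exact ⟨x i, rfl⟩
  obtain ⟨x, hx, hxn⟩ := Nat.sSup_mem hA1 hA2
  refine ⟨x, hx, fun z hz => ?_⟩
  rw [hxn]
  exact le_csSup hA2 ⟨z, hz, rfl⟩

/-- The theorem for sets of variables. -/
theorem real_var (v k w r : ℕ) (hv : 2 ≤ v) (hr : 1 ≤ r)
    (hk : 2 ^ 13 * (r * (w + 1)) ^ 2 * (Nat.log 2 v + 1) ^ 4 ≤ k) (hkv : 2 * k ≤ v)
    (F : Finset (Sym2 (Fin v))) (hF : ∀ e ∈ F, ¬ e.IsDiag) :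
    ∃ D : (Sym2 (Fin v) → Bool) → ℝ, (∀ x, 0 ≤ D x) ∧ ∑ x, D x = 1 ∧
      (∀ x y, D x ≠ 0 → D y ≠ 0 → ∀ e ∉ F, x e = y e) ∧
      ∀ (s a : ℕ) (c : GraphCircuit v a s) (o : Fin s), s < 2 ^ w → Narrow c (2 * r) → Free c →
        ∃ x : ℕ → (Sym2 (Fin v) → Bool), Monotone x ∧ (∀ i, ∀ e ∉ F, x i e = x 0 e) ∧
          (F.card : ℝ) * adv D c o k < 2 ^ 38 * numPatterns c x * (a + r * (w + 1)) *
            (r * (w + 1)) ^ 2 * (Nat.log 2 v + 1) ^ 5 := by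
  obtain ⟨D, hD, h⟩ := main_var allQd allPc EV.items v k w r hv hr hk hkv F hF
  refine ⟨D, hD.nonneg, hD.sum, hD.supp, fun s a c o hs hn hf => ?_⟩
  obtain ⟨x, ⟨hx1, hx2⟩, hx⟩ := exists_seq c
    (fun x => Monotone x ∧ ∀ i, ∀ e ∉ F, x i e = x 0 e) ⟨monotone_const, fun _ _ _ => rfl⟩
  refine ⟨x, hx1, hx2, ?_⟩
  have key := h s a (numPatterns c x) c o hs hn hf (fun z hz1 hz2 => hx z ⟨hz1, hz2⟩)
  rwa [adv_eq' hD.sum] at key

/-- The theorem for all variables and a larger range. -/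
theorem real_rec (v k w r : ℕ) (hv : 2 ≤ v) (hr : 1 ≤ r)
    (hk : 600 * (r * (w + 1)) * (Nat.log 2 v + 1) ^ 4 ≤ k) (hkv : 2 * k ≤ v)
    (F : Finset (Sym2 (Fin v))) (hF : ∀ e, ¬ e.IsDiag → e ∈ F) :
    ∃ D : (Sym2 (Fin v) → Bool) → ℝ, (∀ x, 0 ≤ D x) ∧ ∑ x, D x = 1 ∧
      (∀ x y, D x ≠ 0 → D y ≠ 0 → ∀ e ∉ F, x e = y e) ∧
      ∀ (s a : ℕ) (c : GraphCircuit v a s) (o : Fin s), s < 2 ^ w → Narrow c (2 * r) → Free c →
        ∃ x : ℕ → (Sym2 (Fin v) → Bool), Monotone x ∧ (∀ i, ∀ e ∉ F, x i e = x 0 e) ∧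
          (v : ℝ) ^ 2 * adv D c o k < 2 ^ 34 * numPatterns c x * (a + r * (w + 1)) *
            (r * (w + 1)) ^ 2 * (Nat.log 2 v + 1) ^ 7 := by
  obtain ⟨D, hD, h⟩ := main_rec allQd allPc v k w r hv hr hk hkv F hF
  refine ⟨D, hD.nonneg, hD.sum, hD.supp, fun s a c o hs hn hf => ?_⟩
  obtain ⟨x, ⟨hx1, hx2⟩, hx⟩ := exists_seq c
    (fun x => Monotone x ∧ ∀ i, ∀ e ∉ F, x i e = x 0 e) ⟨monotone_const, fun _ _ _ => rfl⟩
  refine ⟨x, hx1, hx2, ?_⟩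
  have hP : ClF c F (numPatterns c x) := fun z hz1 hz2 => hx z ⟨hz1, hz2⟩
  have key := h s a (numPatterns c x) c o hs hn hf hP.one hP
  rwa [adv_eq' hD.sum] at key

lemma card_pairs {v : ℕ} (F : Finset (Sym2 (Fin v))) (hF : ∀ e ∈ F, ¬ e.IsDiag) :
    (F.card : ℝ) ≤ (v : ℝ) ^ 2 / 2 := by
  classical
  have h1 : F ⊆ univ.filter (fun e : Sym2 (Fin v) => ¬ e.IsDiag) := by
    intro e he
    rw [Finset.mem_filter]
    exact ⟨mem_univ _, hF e he⟩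
  have h2 : (univ.filter (fun e : Sym2 (Fin v) => ¬ e.IsDiag)).card = v.choose 2 := by
    rw [← Fintype.card_subtype]
    have := Sym2.card_subtype_not_diag (α := Fin v)
    rw [Fintype.card_fin] at this
    convert this
  have h3 : F.card ≤ v.choose 2 := h2 ▸ Finset.card_le_card h1
  have h4 : ((v.choose 2 : ℕ) : ℝ) ≤ (v : ℝ) ^ 2 / 2 := by
    rw [Nat.cast_choose_two]
    have : (0 : ℝ) ≤ v := Nat.cast_nonneg _
    nlinarith
  exact le_trans (by exact_mod_cast h3) h4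

/-- The theorem in one piece. -/
theorem real_all (v k w r : ℕ) (hv : 2 ≤ v) (hr : 1 ≤ r) (hkv : 2 * k ≤ v)
    (F : Finset (Sym2 (Fin v))) (hF : ∀ e ∈ F, ¬ e.IsDiag)
    (hk : 2 ^ 13 * (r * (w + 1)) ^ 2 * (Nat.log 2 v + 1) ^ 4 ≤ k ∨
      (∀ e, ¬ e.IsDiag → e ∈ F) ∧ 600 * (r * (w + 1)) * (Nat.log 2 v + 1) ^ 4 ≤ k) :
    ∃ D : (Sym2 (Fin v) → Bool) → ℝ, (∀ x, 0 ≤ D x) ∧ ∑ x, D x = 1 ∧
      (∀ x y, D x ≠ 0 → D y ≠ 0 → ∀ e ∉ F, x e = y e) ∧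
      ∀ (s a : ℕ) (c : GraphCircuit v a s) (o : Fin s), s < 2 ^ w → Narrow c (2 * r) → Free c →
        ∃ x : ℕ → (Sym2 (Fin v) → Bool), Monotone x ∧ (∀ i, ∀ e ∉ F, x i e = x 0 e) ∧
          (F.card : ℝ) * adv D c o k < 2 ^ 38 * numPatterns c x * (a + r * (w + 1)) *
            (r * (w + 1)) ^ 2 * (Nat.log 2 v + 1) ^ 7 := by
  have hL : (1 : ℝ) ≤ (Nat.log 2 v : ℝ) + 1 := by
    have : (0 : ℝ) ≤ (Nat.log 2 v : ℝ) := Nat.cast_nonneg _
    linarith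
  have hrR : (1 : ℝ) ≤ r := by exact_mod_cast hr
  rcases hk with hk | ⟨hall, hk⟩
  · obtain ⟨D, h1, h2, h3, h4⟩ := real_var v k w r hv hr hk hkv F hF
    refine ⟨D, h1, h2, h3, fun s a c o hs hn hf => ?_⟩
    obtain ⟨x, hx1, hx2, hx3⟩ := h4 s a c o hs hn hf
    refine ⟨x, hx1, hx2, lt_of_lt_of_le hx3 ?_⟩
    have h5 : ((Nat.log 2 v : ℝ) + 1) ^ 5 ≤ ((Nat.log 2 v : ℝ) + 1) ^ 7 :=
      pow_le_pow_right₀ hL (by norm_num)
    apply mul_le_mul_of_nonneg_left h5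
    positivity
  · obtain ⟨D, h1, h2, h3, h4⟩ := real_rec v k w r hv hr hk hkv F hall
    refine ⟨D, h1, h2, h3, fun s a c o hs hn hf => ?_⟩
    obtain ⟨x, hx1, hx2, hx3⟩ := h4 s a c o hs hn hf
    refine ⟨x, hx1, hx2, ?_⟩
    have hx0 : (0 : ℝ) ≤ numPatterns c x := Nat.cast_nonneg _
    rcases le_or_gt (adv D c o k) 0 with hα | hα
    · have hP : ClF c F (numPatterns c x) → (1 : ℝ) ≤ numPatterns c x := fun h => by
        exact_mod_cast h.one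
      have hP1 : (1 : ℝ) ≤ numPatterns c x := by
        have : 1 ≤ numPatterns c x := by
          unfold numPatterns
          rw [Nat.one_le_iff_ne_zero, ← Nat.pos_iff_ne_zero]
          have hf : (Set.range fun i => pattern c (withGuess (x i) fun _ => false)).Finite := by
            refine (Set.finite_range (fun z : Sym2 (Fin v) → Bool =>
              pattern c (withGuess z fun _ => false))).subset ?_
            rintro _ ⟨i, rfl⟩
            exact ⟨x i, rfl⟩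
          rw [Set.ncard_pos hf]
          exact Set.range_nonempty _
        exact_mod_cast this
      have hpos : (0 : ℝ) < 2 ^ 38 * numPatterns c x * (a + r * (w + 1)) *
          (r * (w + 1)) ^ 2 * (Nat.log 2 v + 1) ^ 7 := by positivity
      exact lt_of_le_of_lt (mul_nonpos_of_nonneg_of_nonpos (by positivity) hα) hpos
    · have h6 : (F.card : ℝ) * adv D c o k ≤ (v : ℝ) ^ 2 / 2 * adv D c o k :=
        mul_le_mul_of_nonneg_right (card_pairs F hF) hα.le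
      have h7 : (0 : ℝ) ≤ numPatterns c x * (a + r * (w + 1)) *
        (r * (w + 1)) ^ 2 * (Nat.log 2 v + 1) ^ 7 := by positivity
      have h8 : (2 : ℝ) ^ 34 * numPatterns c x * (a + r * (w + 1)) *
        (r * (w + 1)) ^ 2 * (Nat.log 2 v + 1) ^ 7 = 2 ^ 34 * (numPatterns c x *
        (a + r * (w + 1)) * (r * (w + 1)) ^ 2 * (Nat.log 2 v + 1) ^ 7) := by ring
      have h9 : (2 : ℝ) ^ 38 * numPatterns c x * (a + r * (w + 1)) *
        (r * (w + 1)) ^ 2 * (Nat.log 2 v + 1) ^ 7 = 2 ^ 38 * (numPatterns c x *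
        (a + r * (w + 1)) * (r * (w + 1)) ^ 2 * (Nat.log 2 v + 1) ^ 7) := by ring
      rw [h9]
      rw [h8] at hx3
      linarith

end Pool.Agent.RH
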