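import Pool.Agent.Work.MP_71c844_lc.RH.Stmts
import Pool.Agent.Work.MP_71c844_lc.AV.Circ

/-!
# Block RH: the abstract average-case bound for circuits with real gates
-/

namespace Pool.Agent.RH

open Finset
open Pool.Agent.NegLim (Dich Tn lowSets pull)
open Pool.Agent.LayCirc (inp gproj)
open Pool.Agent.AV (er er_nonneg ef avg_abs rare planted_le Ex)

set_option linter.unusedSectionVars false

variable {ι : Type} {s a : ℕ} {E : Type} [Fintype E] [DecidableEq E]

lemma inp_gproj (π : ι → Bool ⊕ E) (y : Fin a → Bool) (X : Finset E) :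
    inp (gproj π y) X = withGuess (inp π X) y := by
  funext e
  rcases e with e | p
  · rfl
  · rfl

lemma inp_mono (π : ι → Bool ⊕ E) {X Z : Finset E} (h : X ⊆ Z) : inp π X ≤ inp π Z := by
  intro e
  show inp π X e ≤ inp π Z e
  unfold inp pull
  rcases π e with b' | t
  · exact le_rfl
  · by_cases h1 : t ∈ X
    · simp only [h1, h h1, le_refl]
    · simp only [h1, decide_false]
      exact Bool.false_le _

lemma card_pat (inst : DecidableEq (Fin s → ℝ)) (c : Circuit ι s) (X : ℕ → (ι → Bool))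
    (hfin : (Set.range X).Finite) (m P : ℕ)
    (h : (Set.range (fun i => pattern c (X i))).ncard ≤ P) :
    (@Finset.image ℕ (Fin s → ℝ) inst (fun i => pat c (X i)) (range m)).card ≤ P := by
  classical
  refine le_trans ?_ h
  rw [← Set.ncard_coe_finset]
  let ext : ({j : Fin s // Fed c j} → ℝ) → (Fin s → ℝ) :=
    fun f j => if h : Fed c j then f ⟨j, h⟩ else 0
  have hfin' : (Set.range (fun i => pattern c (X i))).Finite := by
    have : Set.range (fun i => pattern c (X i)) = pattern c '' Set.range X := by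
      rw [← Set.range_comp]; rfl
    rw [this]; exact hfin.image _
  refine le_trans (Set.ncard_le_ncard
    (t := ext '' (Set.range (fun i => pattern c (X i))))
    ?_ (hfin'.image _)) (Set.ncard_image_le hfin')
  intro f hf
  obtain ⟨i, _, rfl⟩ := (@Finset.mem_image _ _ inst _ _ _).mp (Finset.mem_coe.mp hf)
  refine ⟨pattern c (X i), ⟨i, rfl⟩, ?_⟩
  funext j
  simp only [ext, pattern, pat]
  by_cases h : Fed c j
  · rw [dif_pos h, if_pos h]
  · rw [dif_neg h, if_neg h]

variable {U : Type} [Fintype U] [Nonempty U]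

open Classical in
/-- The abstract average-case bound for circuits with real gates and guess bits. -/
theorem guess_avg (hQd : StQd) (hPc : StPc) {b t r ℓ K R N P : ℕ} {q : ℝ} {Y : U → Finset E}
    (ht : 1 ≤ t) (hr : 1 ≤ r) (hrt : r * t ≤ b) (hℓ : 2 * b < 2 ^ ℓ) (hq : 128 * 2 ^ (K + 2) ≤ q)
    (hY : ∀ A : Finset E, A.card ≤ 2 * b →
      ((univ.filter (fun u => A ⊆ Y u)).card : ℝ) ≤ Fintype.card U * (1 / q) ^ A.card)
    (hN : ∀ u, N ≤ (Y u).card) (hU : 2 * Fintype.card U ≤ 2 ^ N)
    (π : ι → Bool ⊕ E) (c : Circuit (ι ⊕ (Fin a × Bool)) s) (o : Fin s)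
    (hfan : Narrow c (2 * r))
    (hfree : ∀ j, Fed c j → ∀ (x : ι → Bool) (y y' : Fin a → Bool),
      val c (withGuess x y) j = val c (withGuess x y') j)
    {cl : (ι → Bool) → Prop} (hcl : ∀ X : Finset E, cl (inp π X) ↔ ∃ u, Y u ⊆ X)
    (hP1 : 1 ≤ P)
    (hP : ∀ X : ℕ → Finset E, Monotone X →
      (Set.range (fun i => pattern c (withGuess (inp π (X i)) fun _ => false))).ncard ≤ P)
    (hS : 2 * s + 1 ≤ 2 ^ t)
    (hSR : 2 ^ (K + 2) * (2 ^ a * ((2 * s + 2) *
      (((lowSets E b).card + 1) * (lowSets E b).card))) ≤ 2 ^ R) (hR : 1 ≤ R)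
    (hℓ1 : 1 ≤ ℓ) :
    (2 : ℝ) ^ (K + 2) * (1 - 2 * Ex (1 / (2 : ℝ) ^ (K + 2)) (2 ^ K) Y
      (fun X => er (∀ y, 0 < val c (withGuess (inp π X) y) o) (cl (inp π X)))) ≤
      44 * ((K + 2 : ℕ) : ℝ) * ((ℓ * R * P : ℕ) : ℝ) + 2 ^ (K + 2) * (1 / 2) ^ (N + 1) := by
  set W : ℝ := ((lowSets E b).card : ℝ) with hW
  set ε : ℝ := (((2 * s + 1 : ℕ) : ℝ) + 1) * ((W + 1) * (W * (1 / 2) ^ R)) with hε
  have hW0 : 0 ≤ W := by rw [hW]; positivity
  have hε0 : 0 ≤ ε := by rw [hε]; positivity
  have hcardG : Fintype.card (Fin a → Bool) = 2 ^ a := by simp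
  have hmε : (2 : ℝ) ^ (K + 2) * (Fintype.card (Fin a → Bool) * ε) ≤ 1 := by
    have e1 : ((2 : ℝ) ^ (K + 2) * (2 ^ a * ((2 * (s : ℝ) + 2) * ((W + 1) * W)))) ≤ 2 ^ R := by
      rw [hW]; exact_mod_cast hSR
    rw [hε, hcardG]
    have e4 : (1 / 2 : ℝ) ^ R = 1 / 2 ^ R := by rw [div_pow, one_pow]
    rw [e4]
    have : (2 : ℝ) ^ (K + 2) * (((2 ^ a : ℕ) : ℝ) *
        ((((2 * s + 1 : ℕ) : ℝ) + 1) * ((W + 1) * (W * (1 / 2 ^ R))))) =
        ((2 : ℝ) ^ (K + 2) * (2 ^ a * ((2 * (s : ℝ) + 2) * ((W + 1) * W)))) / 2 ^ R := by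
      push_cast
      ring
    rw [this, div_le_one (by positivity)]
    exact e1
  -- the pattern does not depend on the guess
  have hpat : ∀ (x : ι → Bool) (y : Fin a → Bool),
      pat c (withGuess x y) = pat c (withGuess x fun _ => false) := by
    intro x y
    funext j
    unfold pat
    by_cases hj : Fed c j
    · rw [if_pos hj, if_pos hj]
      exact hfree j hj _ _ _
    · rw [if_neg hj, if_neg hj]
  obtain ⟨h1, h2⟩ := ef (Y := Y) (π := π) hcl (fun x => ∀ y, 0 < val c (withGuess x y) o)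
  have key := avg_abs (E := E) (U := U) (J := Unit) (H := Fin s → ℝ) (b := 6)
    (K := K) (q := q) (ε := Fintype.card (Fin a → Bool) * ε)
    (η := (1 / 2) ^ (N + 1)) (Y := Y)
    (by norm_num) (by
      have : (0 : ℝ) < 2 ^ (K + 2) := by positivity
      push_cast; linarith) (by positivity) hmε
    (fun _ => ℓ * R) (fun _ => P) (fun _ => Nat.one_le_iff_ne_zero.mpr (by positivity))
    (fun _ => hP1)
    (fun _ X => pat c (withGuess (inp π X) fun _ => false))
    (fun _ h X => decide (∀ y : Fin a → Bool, qry c o h (inp (gproj π y) X) = true)) ?_ ?_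
    (fun X => decide (∀ y, 0 < val c (withGuess (inp π X) y) o))
    (fun X => er (∀ y, 0 < val c (withGuess (inp π X) y) o) (cl (inp π X)))
    (fun X => if ∃ u, Y u ⊆ X then 1 else 0) (fun X => er_nonneg _ _)
    (fun X => by split_ifs <;> norm_num)
    (fun X hX => h1 X (of_decide_eq_true hX)) (fun X u hX => h2 X u (of_decide_eq_false hX)) ?_ ?_
  · simpa using key
  · intro _ h
    apply NegLim.Dich.all
    intro y
    exact hQd E U b t r ℓ (K + 2) R q Y ht hr hrt hℓ hq hY (ι ⊕ (Fin a × Bool)) s c o h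
      (gproj π y) hfan hS
  · intro _ x hx m
    refine card_pat _ c (fun i => withGuess (inp π (x i)) fun _ => false) ?_ m P (hP x hx)
    refine Set.Finite.subset (Set.finite_range
      (fun X : Finset E => (withGuess (inp π X) fun _ => false : ι ⊕ (Fin a × Bool) → Bool))) ?_
    rintro _ ⟨i, rfl⟩
    exact ⟨x i, rfl⟩
  · intro x u hx hxu
    refine ⟨(), ?_, ?_⟩
    · have hxo := of_decide_eq_false hx
      push Not at hxo
      obtain ⟨y, hy⟩ := hxo
      rw [decide_eq_false_iff_not]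
      intro hall
      have h1 := hall y
      rw [inp_gproj, ← hpat (inp π x) y] at h1
      have h2 := ((hPc _ s c o (withGuess (inp π x) y)).1).mp h1
      linarith
    · rw [decide_eq_true_eq]
      intro y
      rw [inp_gproj, ← hpat (inp π x) y]
      refine (hPc _ s c o (withGuess (inp π x) y)).2 _ ?_ (of_decide_eq_true hxu y)
      have := inp_mono π (Finset.subset_union_left : x ⊆ x ∪ Y u)
      intro e
      rcases e with e | p
      · exact this e
      · exact le_rfl
  · intro t ht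
    exact rare hN hU _ (fun x => planted_le Y x) t ht

end Pool.Agent.RH
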