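import Mathlib

/-!
Circuits whose wires carry real numbers, with monotone gates of any bounded fan-in.
-/

namespace Pool.Agent.RH

/-- The gates that may read the outputs of the gates number `0, …, n - 1`, over the Boolean input
variables `ι`: a variable (with the value `0` or `1`), a monotone gate, which computes any function
of `m` real numbers that is nondecreasing in each of them (`m = 0`: a constant), and an arbitrary
gate, which computes any function of `m` real numbers. -/
inductive Gate (ι : Type) (n : ℕ) where
  | var (i : ι)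
  | mon (m : ℕ) (a : Fin m → Fin n) (φ : (Fin m → ℝ) → ℝ) (hφ : Monotone φ)
  | arb (m : ℕ) (a : Fin m → Fin n) (f : (Fin m → ℝ) → ℝ)

/-- A circuit with `s` gates, over the input variables `ι`. Gate number `i` reads only gates with
smaller numbers. -/
abbrev Circuit (ι : Type) (s : ℕ) : Type := (i : Fin s) → Gate ι i.1

variable {ι : Type} {s : ℕ}

/-- The value of gate number `i` on the input `x`. -/
noncomputable def val (c : Circuit ι s) (x : ι → Bool) (i : Fin s) : ℝ :=
  match c i with
  | .var e => if x e then 1 else 0
  | .mon _ a φ _ => φ fun l => val c x ⟨(a l).1, (a l).2.trans i.2⟩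
  | .arb _ a f => f fun l => val c x ⟨(a l).1, (a l).2.trans i.2⟩
termination_by i.1
decreasing_by
  · exact (a l).2
  · exact (a l).2

/-- Every monotone gate has at most `r` inputs. -/
def FanIn (c : Circuit ι s) (r : ℕ) : Prop :=
  ∀ (i : Fin s) (m : ℕ) (a : Fin m → Fin i.1) (φ : (Fin m → ℝ) → ℝ) (hφ : Monotone φ),
    c i = .mon m a φ hφ → m ≤ r

/-- Every value `φ y` is certified by at most `r` inputs: `φ y ≤ φ y'` whenever `y'` is at least `y`
on these inputs. (So `φ` is nondecreasing. Examples: every nondecreasing function of `r` real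
numbers; the maximum or the `r`-th largest of any number of real numbers.) -/
def Cert (r : ℕ) {m : ℕ} (φ : (Fin m → ℝ) → ℝ) : Prop :=
  ∀ y, ∃ I : Finset (Fin m), I.card ≤ r ∧ ∀ y', (∀ l ∈ I, y l ≤ y' l) → φ y ≤ φ y'

/-- Every value of every monotone gate is certified by at most `r` of its inputs. -/
def Narrow (c : Circuit ι s) (r : ℕ) : Prop :=
  ∀ (i : Fin s) (m : ℕ) (a : Fin m → Fin i.1) (φ : (Fin m → ℝ) → ℝ) (hφ : Monotone φ),
    c i = .mon m a φ hφ → Cert r φ

/-- Gate number `i` is an arbitrary gate. -/
def Arb (c : Circuit ι s) (i : Fin s) : Prop :=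
  ∃ (m : ℕ) (a : Fin m → Fin i.1) (f : (Fin m → ℝ) → ℝ), c i = .arb m a f

/-- Gate number `i` is a NOT gate, `1 - y`, and its input `y` has the value `0` or `1` on every
input of the circuit. -/
def IsNot (c : Circuit ι s) (i : Fin s) : Prop :=
  ∃ j : Fin i.1, c i = .arb 1 (fun _ => j) (fun y => 1 - y 0) ∧
    ∀ x, val c x ⟨j.1, j.2.trans i.2⟩ = 0 ∨ val c x ⟨j.1, j.2.trans i.2⟩ = 1

/-- Gate number `j` is an input of some arbitrary gate. -/
def Fed (c : Circuit ι s) (j : Fin s) : Prop :=
  ∃ (i : Fin s) (m : ℕ) (a : Fin m → Fin i.1) (f : (Fin m → ℝ) → ℝ) (l : Fin m),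
    c i = .arb m a f ∧ (a l).1 = j.1

/-- The vector of the values, on the input `x`, of all gates that are inputs of arbitrary gates. -/
noncomputable def pattern (c : Circuit ι s) (x : ι → Bool) : {j : Fin s // Fed c j} → ℝ :=
  fun j => val c x j.1

/-- The input consisting of `x` and of the guess `y`; the two literals of the `l`-th bit of the
guess are the input variables `(l, true)` (equal to `y l`) and `(l, false)` (its negation). -/
def withGuess {a : ℕ} (x : ι → Bool) (y : Fin a → Bool) : ι ⊕ (Fin a × Bool) → Bool :=
  Sum.elim x fun p => y p.1 == p.2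

/-- Circuits whose inputs are the pairs of `v` vertices (a graph) and the literals of `a` guess
bits. -/
abbrev GraphCircuit (v a s : ℕ) : Type := Circuit (Sym2 (Fin v) ⊕ (Fin a × Bool)) s

/-- The arbitrary gates read only gates whose values do not depend on the guess. -/
def Free {v a s : ℕ} (c : GraphCircuit v a s) : Prop :=
  ∀ j, Fed c j → ∀ (x : Sym2 (Fin v) → Bool) (y y' : Fin a → Bool),
    val c (withGuess x y) j = val c (withGuess x y') j

/-- The circuit with the output `o` is right on the graph `x`: it accepts `x`, which means that the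
output is positive for all guesses, exactly if `x` has a clique on `k` vertices. -/
def Right {v a s : ℕ} (c : GraphCircuit v a s) (o : Fin s) (k : ℕ) (x : Sym2 (Fin v) → Bool) :
    Prop :=
  (∀ y, 0 < val c (withGuess x y) o) ↔ ¬ (SimpleGraph.fromEdgeSet {e | x e = true}).CliqueFree k

open Classical in
/-- `Pr[right] - Pr[wrong]` for a graph chosen according to `D`. -/
noncomputable def adv {v a s : ℕ} (D : (Sym2 (Fin v) → Bool) → ℝ) (c : GraphCircuit v a s)
    (o : Fin s) (k : ℕ) : ℝ :=
  ∑ x, D x * (if Right c o k x then 1 else -1)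

/-- The number of different values of the pattern along the sequence `x` of graphs. -/
noncomputable def numPatterns {v a s : ℕ} (c : GraphCircuit v a s)
    (x : ℕ → (Sym2 (Fin v) → Bool)) : ℕ :=
  (Set.range fun i => pattern c (withGuess (x i) fun _ => false)).ncard

end Pool.Agent.RH
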