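import Pool.Agent.Work.MP_71c844_lc.RH.Stmts

/-!
Item Dp of the block RH: the dichotomy at all scales.
-/

namespace Pool.Agent.RH

open Finset
open Pool.Agent.NegLim (Tn miss lowSets Dich dens_ge)
open Pool.Agent.Rec82 (Sun)
open Pool.Agent.RG (Scale)

open Classical in
theorem pfDp : StDc → StDp := by
  intro hDc E _ _ U _ _ b t r ℓ K R q Y ht hr hrt hℓ hq hY S G hS hmono hprog
  have hb : 1 ≤ b := (Nat.mul_le_mul hr ht).trans hrt
  refine ⟨hmono, ?_⟩
  set δ : ℝ := 1 / (2 : ℝ) ^ K with hδ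
  have hM : (0 : ℝ) < 2 ^ K := by positivity
  have h0 : 0 ≤ δ := by positivity
  have h1 : δ ≤ 1 := by
    rw [hδ, div_le_one hM]; exact one_le_pow₀ (by norm_num)
  have hqpos : 0 < q := lt_of_lt_of_le (by positivity) hq
  have hUpos : (0 : ℝ) < Fintype.card U := by exact_mod_cast Fintype.card_pos
  let B : ℕ → ℝ := fun k => 32 * 2 ^ K / 2 ^ k
  have hB0 : ∀ k, 0 < B k := fun k => by simp only [B]; positivity
  have hBq : ∀ k, 2 * B k / q ≤ 1 / 2 := by
    intro k
    rw [div_le_iff₀ hqpos]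
    have : B k ≤ 32 * 2 ^ K := by
      simp only [B]
      apply div_le_self (by positivity)
      exact one_le_pow₀ (by norm_num)
    linarith
  have hscale : ∀ k, k ≤ K → Scale E U δ (2 ^ k * (ℓ * R)) b (B k) q ((1 / 2) ^ R) Y := by
    intro k hk
    refine ⟨h0, h1, hB0 k, hqpos, hBq k, hb, by positivity, ?_, fun A hA => hY A hA⟩
    intro j F hj hF hFc
    have hge := dens_ge (M := 2 ^ K) (n := 2 ^ k) (by positivity)
      (Nat.pow_le_pow_right (by norm_num) hk)
    push_cast at hge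
    rw [← hδ] at hge
    have e1 : B k * ((2 : ℝ) ^ k / (2 * 2 ^ K)) = 16 := by
      simp only [B]; field_simp; norm_num
    have e2 : 16 ≤ B k * NegLim.dens δ (2 ^ k) := by
      calc (16 : ℝ) = B k * ((2 : ℝ) ^ k / (2 * 2 ^ K)) := e1.symm
        _ ≤ B k * NegLim.dens δ (2 ^ k) := mul_le_mul_of_nonneg_left hge (hB0 k).le
    have := Rec82.sunflower h0 h1 (2 ^ k) ℓ b j R (B k) (hB0 k) hj hℓ e2 F hF hFc
    rwa [mul_assoc] at this
  intro k hk x
  have h4 : (4 : ℝ) * (8 * ((6 : ℕ) : ℝ) * 2 ^ K / 2 ^ k / q) = 6 * (B k / q) := by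
    simp only [B]; push_cast; ring
  rw [h4]
  obtain ⟨F, hF, i, hi, hG⟩ := hprog x
  rcases hDc E U δ (2 ^ k * (ℓ * R)) b t r (B k) q ((1 / 2) ^ R) Y (hscale k hk) ht hr hrt S F hF i hi 1 with h | h
  · left
    rw [NegLim.Tn_translate']
    have hfun : (fun z => if G (x ∪ z) = true then (0 : ℝ) else 1) =
        fun y => if (1 : ℝ) ≤ F i y then (0 : ℝ) else 1 := by
      funext z
      by_cases hz : G (x ∪ z) = true
      · rw [if_pos hz, if_pos ((hG z).2 hz)]
      · rw [if_neg hz, if_neg (fun hc => hz ((hG z).1 hc))]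
    rw [hfun]
    exact h
  · right
    rw [div_le_iff₀ hUpos]
    have hset : (univ.filter (fun u => G (x ∪ Y u) = true)).card ≤
        (univ.filter (fun u => (1 : ℝ) ≤ F i (Y u))).card := by
      refine Finset.card_le_card fun u hu => ?_
      rw [Finset.mem_filter] at hu ⊢
      exact ⟨hu.1, (hG (Y u)).2 hu.2⟩
    have hset' : ((univ.filter (fun u => G (x ∪ Y u) = true)).card : ℝ) ≤
        ((univ.filter (fun u => (1 : ℝ) ≤ F i (Y u))).card : ℝ) := by exact_mod_cast hset
    refine hset'.trans (h.trans ?_)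
    rw [mul_comm]
    apply mul_le_mul_of_nonneg_right _ hUpos.le
    have hBk : 0 ≤ 2 * B k / q := div_nonneg (mul_nonneg (by norm_num) (hB0 k).le) hqpos.le
    have e0 : 2 * B k / q = 2 * (B k / q) := by ring
    have e1 : (2 * B k / q) ^ (t + 1) ≤ (1 / 2) ^ t * (2 * B k / q) := by
      rw [pow_succ]
      exact mul_le_mul_of_nonneg_right (pow_le_pow_left₀ hBk (hBq k) t) hBk
    have e2 : (S : ℝ) * (1 / 2) ^ t ≤ 1 := by
      have e3 : (S : ℝ) ≤ 2 ^ t := by exact_mod_cast hS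
      have e4 : (1 / 2 : ℝ) ^ t = 1 / 2 ^ t := by rw [div_pow, one_pow]
      rw [e4, mul_one_div, div_le_one (by positivity)]
      exact e3
    have e5 : (S : ℝ) * (2 * (2 * B k / q) ^ (t + 1)) ≤ 2 * (2 * B k / q) := by
      calc (S : ℝ) * (2 * (2 * B k / q) ^ (t + 1))
          ≤ (S : ℝ) * (2 * ((1 / 2) ^ t * (2 * B k / q))) := by
            apply mul_le_mul_of_nonneg_left _ (by positivity)
            linarith
        _ = ((S : ℝ) * (1 / 2) ^ t) * (2 * (2 * B k / q)) := by ring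
        _ ≤ 1 * (2 * (2 * B k / q)) := mul_le_mul_of_nonneg_right e2 (by positivity)
        _ = 2 * (2 * B k / q) := one_mul _
    rw [e0] at e5
    rw [e0]
    linarith

end Pool.Agent.RH
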