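import Pool.Agent.Work.MP_71c844_lc.RH.Defs
import Pool.Agent.Work.MP_71c844_lc.RG.Stmts

/-!
Statements of the block RH: the theorem of the block RG for monotone real gates of fan-in at most
`2 r` (part 1, all proofs are small changes of the items of the block RG), and the upper bound:
every function has a circuit with few real gates and `log n` NOT gates (part 2).
-/

namespace Pool.Agent.RH

open Finset
open Pool.Agent.NegLim (Tn miss Closed lowSets minMembers trim Dich)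
open Pool.Agent.Rec82 (Sun)
open Pool.Agent.LayCirc (inp)
open Pool.Agent.RG (cl link chainMin StCl StLk StCh StPl Scale)

section defs

variable {E : Type} [Fintype E] [DecidableEq E]

/-- Programs with `s` instructions: instruction number `i` is a variable, or a real function of
earlier instructions whose values are certified by at most `2 r` of its inputs. -/
def Prog (r s : ℕ) (F : ℕ → Finset E → ℝ) : Prop :=
  ∀ i < s, (∃ e : E, ∀ z, F i z = if e ∈ z then 1 else 0) ∨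
    ∃ (m : ℕ) (φ : (Fin m → ℝ) → ℝ), Cert (2 * r) φ ∧ ∃ a : Fin m → ℕ, (∀ l, a l < i) ∧
      ∀ z, F i z = φ (fun l => F (a l) z)

end defs

/-! ## Part 1: the lower bound -/

/-- [RH St] As `RG.StSt`, trimming at `t` instead of `b`; prove
`StCl → StLk → StCh → StPl → StSt`. Model: RG/I_St.lean (change `trim b` to `trim t`, `b + 1` to
`t + 1`; if `t + 1 > 2 * b` nothing is trimmed). -/
def StSt : Prop :=
  ∀ (E : Type) [Fintype E] [DecidableEq E] (U : Type) [Fintype U] (δ : ℝ) (L b t : ℕ) (B q ε : ℝ)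
    (Y : U → Finset E), Scale E U δ L b B q ε Y →
    ∀ 𝒰 : ℝ → Finset (Finset E), (∀ r r', r ≤ r' → 𝒰 r' ⊆ 𝒰 r) → (∀ r, 𝒰 r ⊆ lowSets E b) →
    ∃ (𝒢 : ℝ → Finset (Finset E)) (P : Finset U) (Z : Finset E → ℝ),
      (∀ r, ∀ A ∈ 𝒢 r, A.card ≤ t) ∧
      (P.card : ℝ) ≤ Fintype.card U * (2 * (2 * B / q) ^ (t + 1)) ∧
      (∀ z, 0 ≤ Z z) ∧
      Tn δ L Z ∅ ≤ ((lowSets E b).card + 1) * ((lowSets E b).card * ε) ∧
      (∀ u ∉ P, ∀ r, (∃ A ∈ 𝒰 r, A ⊆ Y u) → ∃ A ∈ 𝒢 r, A ⊆ Y u) ∧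
      (∀ z r, (∃ A ∈ 𝒢 r, A ⊆ z) → (¬ ∃ A ∈ 𝒰 r, A ⊆ z) → 1 ≤ Z z)

/-- [RH Ap] As `RG.StAp`; prove `StSt → StAp`. Model: RG/I_Ap.lean. A function `φ` of the
instructions `a l`, `l : Fin m`: apply `StSt` to
`𝒰 x = {A | ∃ (y : Fin m → ℝ) (I : Finset (Fin m)) (A' : Fin m → Finset E), I.card ≤ 2 * r ∧
(∀ y', (∀ l ∈ I, y l ≤ y' l) → x ≤ φ y') ∧ (∀ l ∈ I, A' l ∈ G (a l) (y l)) ∧ A = I.biUnion A'}`
(sets of size `≤ 2 r t ≤ 2 b`; decreasing in `x`). If
`x ≤ F i (Y u) = φ (fun l => F (a l) (Y u))` take `y l = F (a l) (Y u)` and a certificate `I`. If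
`I.biUnion A' ⊆ z` and `F i z < x`, then `F (a l) z < y l` for some `l ∈ I` (otherwise
`x ≤ φ (fun l => F (a l) z)`), hence `1 ≤ Z z`. A constant is the case `m = 0`, no extra case. -/
def StAp : Prop :=
  ∀ (E : Type) [Fintype E] [DecidableEq E] (U : Type) [Fintype U] (δ : ℝ) (L b t r : ℕ)
    (B q ε : ℝ) (Y : U → Finset E), Scale E U δ L b B q ε Y → 1 ≤ t → r * t ≤ b →
    ∀ (s : ℕ) (F : ℕ → Finset E → ℝ), Prog r s F →
    ∃ (G : ℕ → ℝ → Finset (Finset E)) (P : Finset U) (Z : Finset E → ℝ),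
      (∀ i < s, ∀ x, ∀ A ∈ G i x, A.card ≤ t) ∧
      (P.card : ℝ) ≤ s * (Fintype.card U * (2 * (2 * B / q) ^ (t + 1))) ∧
      (∀ z, 0 ≤ Z z) ∧
      Tn δ L Z ∅ ≤ s * (((lowSets E b).card + 1) * ((lowSets E b).card * ε)) ∧
      (∀ u ∉ P, ∀ i < s, ∀ x, x ≤ F i (Y u) → ∃ A ∈ G i x, A ⊆ Y u) ∧
      (∀ z, ∀ i < s, ∀ x, (∃ A ∈ G i x, A ⊆ z) → F i z < x → 1 ≤ Z z)

open Classical in
/-- [RH Dc] As `RG.StDc`; prove `StAp → StDc`. Model: RG/I_Dc.lean (the members of `G i x` have at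
most `t ≤ b` elements: `t ≤ r * t ≤ b` if `1 ≤ r`). -/
def StDc : Prop :=
  ∀ (E : Type) [Fintype E] [DecidableEq E] (U : Type) [Fintype U] (δ : ℝ) (L b t r : ℕ)
    (B q ε : ℝ) (Y : U → Finset E), Scale E U δ L b B q ε Y → 1 ≤ t → 1 ≤ r → r * t ≤ b →
    ∀ (s : ℕ) (F : ℕ → Finset E → ℝ), Prog r s F → ∀ i < s, ∀ x : ℝ,
    Tn δ L (fun y => if x ≤ F i y then (0 : ℝ) else 1) ∅ ≤
        (s + 1) * (((lowSets E b).card + 1) * ((lowSets E b).card * ε)) ∨
    ((univ.filter (fun u => x ≤ F i (Y u))).card : ℝ) ≤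
        Fintype.card U * (2 * (B / q) + s * (2 * (2 * B / q) ^ (t + 1)))

open Classical in
/-- [RH Dp] As `RG.StDp`; prove `StDc → StDp`. Model: RG/I_Dp.lean (now
`(2 B / q) ^ (t + 1) ≤ (1 / 2) ^ t * (2 B / q)` and `S * (1 / 2) ^ t ≤ 1`). -/
def StDp : Prop :=
  ∀ (E : Type) [Fintype E] [DecidableEq E] (U : Type) [Fintype U] [Nonempty U]
    (b t r ℓ K R : ℕ) (q : ℝ) (Y : U → Finset E), 1 ≤ t → 1 ≤ r → r * t ≤ b → 2 * b < 2 ^ ℓ →
    128 * 2 ^ K ≤ q →
    (∀ A : Finset E, A.card ≤ 2 * b →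
      ((univ.filter (fun u => A ⊆ Y u)).card : ℝ) ≤ Fintype.card U * (1 / q) ^ A.card) →
    ∀ (S : ℕ) (G : Finset E → Bool), S ≤ 2 ^ t → (∀ x y, x ⊆ y → G x = true → G y = true) →
    (∀ x : Finset E, ∃ F : ℕ → Finset E → ℝ, Prog r S F ∧ ∃ i < S, ∀ z : Finset E,
      1 ≤ F i z ↔ G (x ∪ z) = true) →
    Dich K (ℓ * R) 6 q
      ((S + 1) * (((lowSets E b).card + 1) * ((lowSets E b).card * (1 / 2) ^ R))) Y G

section frozen

variable {ι : Type} {s : ℕ}

/-- The value of gate number `i` if every arbitrary gate is replaced by the value it has when its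
inputs have the values `h`. -/
noncomputable def fval (c : Circuit ι s) (h : Fin s → ℝ) (x : ι → Bool) (i : Fin s) : ℝ :=
  match c i with
  | .var e => if x e then 1 else 0
  | .mon _ a φ _ => φ fun l => fval c h x ⟨(a l).1, (a l).2.trans i.2⟩
  | .arb _ a f => f fun l => h ⟨(a l).1, (a l).2.trans i.2⟩
termination_by i.1
decreasing_by
  · exact (a l).2

open Classical in
/-- The values of the gates read by arbitrary gates, extended by `0`. -/
noncomputable def pat (c : Circuit ι s) (x : ι → Bool) : Fin s → ℝ :=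
  fun j => if Fed c j then val c x j else 0

open Classical in
/-- The query: in the circuit frozen at the pattern `h`, some gate read by arbitrary gates has a
larger value than in `h`, or the output is positive. -/
noncomputable def qry (c : Circuit ι s) (o : Fin s) (h : Fin s → ℝ) (x : ι → Bool) : Bool :=
  decide (0 < fval c h x o ∨ ∃ j, Fed c j ∧ h j < fval c h x j)

end frozen

/-- [RH Mo] The frozen circuit is nondecreasing. Model: RG/I_Mo.lean. -/
def StMo : Prop :=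
  ∀ (ι : Type) (s : ℕ) (c : Circuit ι s) (h : Fin s → ℝ) (x x' : ι → Bool), x ≤ x' →
    ∀ i, fval c h x i ≤ fval c h x' i

/-- [RH Fz] The frozen circuit computes the right values as long as the pattern is right. Model:
RG/I_Fz.lean. -/
def StFz : Prop :=
  ∀ (ι : Type) (s : ℕ) (c : Circuit ι s) (h : Fin s → ℝ) (x : ι → Bool) (n : ℕ),
    (∀ j : Fin s, j.1 < n → Fed c j → h j = val c x j) →
    ∀ j : Fin s, j.1 ≤ n → fval c h x j = val c x j

/-- [RH Pc] The query separates; prove `StMo → StFz → StPc`. Model: RG/I_Pc.lean, word for word. -/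
def StPc : Prop :=
  ∀ (ι : Type) (s : ℕ) (c : Circuit ι s) (o : Fin s) (x : ι → Bool),
    (qry c o (pat c x) x = true ↔ 0 < val c x o) ∧
    ∀ x' : ι → Bool, x ≤ x' → 0 < val c x' o → qry c o (pat c x) x' = true

/-- [RH Qp] The query is a program with `2 s + 1` instructions. Model: RG/I_Qp.lean. Monotone gates
of the circuit stay what they are (`Cert` by `Narrow c (2 * r)`), constants are functions of
`m = 0` variables; the instructions `s`, `…`, `2 s` are functions of one or two variables,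
`m = 2 ≤ 2 r` (for example `φ y = f (y 0) (y 1)` with `f` nondecreasing in both). -/
def StQp : Prop :=
  ∀ (E : Type) [Fintype E] [DecidableEq E] (ι : Type) (s r : ℕ) (c : Circuit ι s) (o : Fin s)
    (h : Fin s → ℝ) (π : ι → Bool ⊕ E) (x : Finset E), 1 ≤ r → Narrow c (2 * r) →
    ∃ F : ℕ → Finset E → ℝ, Prog r (2 * s + 1) F ∧
      ∀ z, F (2 * s) z = if qry c o h (inp π (x ∪ z)) = true then 1 else 0

open Classical in
/-- [RH Qd] The queries satisfy the dichotomy; prove `StDp → StMo → StQp → StQd`. Model: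
RG/I_Qd.lean. -/
def StQd : Prop :=
  ∀ (E : Type) [Fintype E] [DecidableEq E] (U : Type) [Fintype U] [Nonempty U]
    (b t r ℓ K R : ℕ) (q : ℝ) (Y : U → Finset E), 1 ≤ t → 1 ≤ r → r * t ≤ b → 2 * b < 2 ^ ℓ →
    128 * 2 ^ K ≤ q →
    (∀ A : Finset E, A.card ≤ 2 * b →
      ((univ.filter (fun u => A ⊆ Y u)).card : ℝ) ≤ Fintype.card U * (1 / q) ^ A.card) →
    ∀ (ι : Type) (s : ℕ) (c : Circuit ι s) (o : Fin s) (h : Fin s → ℝ) (π : ι → Bool ⊕ E),
    Narrow c (2 * r) → 2 * s + 1 ≤ 2 ^ t →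
    Dich K (ℓ * R) 6 q
      (((2 * s + 1 : ℕ) + 1) * (((lowSets E b).card + 1) * ((lowSets E b).card * (1 / 2) ^ R))) Y
      (fun X => qry c o h (inp π X))

/-! ## Part 2: the upper bound -/

/-- There is a circuit with `s` gates, monotone gates of fan-in at most two, all of whose arbitrary
gates are NOT gates reading `0` or `1`, at most `T` of them, which computes all functions in `𝓕`. -/
def Prov {ι : Type} (s T : ℕ) (𝓕 : Set ((ι → Bool) → ℝ)) : Prop :=
  ∃ c : Circuit ι s, FanIn c 2 ∧ (∀ i, Arb c i → IsNot c i) ∧ Nat.card {i // Arb c i} ≤ T ∧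
    ∀ g ∈ 𝓕, ∃ i, ∀ x, val c x i = g x

/-- [RH Ex] Adding one gate. For `c : Circuit ι s` and `g : Gate ι s` let `c' : Circuit ι (s + 1)`
be `c` with the last gate `g` (`c' i = if h : i.1 < s then c ⟨i.1, h⟩ else` `g` transported along
`i.1 = s`). The values of the old gates do not change (strong induction, unfold `val`); the old
gates stay arbitrary / NOT gates. A function `φ` of two functions: `mon 2 ![j, k] (fun y => φ (y 0)
(y 1))`. A constant: `mon 0`. -/
def StEx : Prop :=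
  ∀ (ι : Type), Prov 0 0 (∅ : Set ((ι → Bool) → ℝ)) ∧
    ∀ (s T : ℕ) (𝓕 : Set ((ι → Bool) → ℝ)), Prov s T 𝓕 →
      (∀ e : ι, Prov (s + 1) T (insert (fun x => if x e then 1 else 0) 𝓕)) ∧
      (∀ y : ℝ, Prov (s + 1) T (insert (fun _ => y) 𝓕)) ∧
      (∀ g ∈ 𝓕, ∀ h ∈ 𝓕, ∀ φ : ℝ → ℝ → ℝ, (∀ a b c d, a ≤ b → c ≤ d → φ a c ≤ φ b d) →
        Prov (s + 1) T (insert (fun x => φ (g x) (h x)) 𝓕)) ∧
      (∀ g ∈ 𝓕, (∀ x, g x = 0 ∨ g x = 1) → Prov (s + 1) (T + 1) (insert (fun x => 1 - g x) 𝓕))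

/-- [RH Su] Partial sums; prove `StEx → StSu`. Induction on `m` (first the constant `0`, then `m`
additions `φ a c = a + w i * c`). The new functions are all partial sums. -/
def StSu : Prop :=
  ∀ (ι : Type) (s T : ℕ) (𝓕 : Set ((ι → Bool) → ℝ)), Prov s T 𝓕 →
    ∀ (m : ℕ) (g : ℕ → (ι → Bool) → ℝ) (w : ℕ → ℝ), (∀ i < m, g i ∈ 𝓕) → (∀ i, 0 ≤ w i) →
      Prov (s + m + 1) T (𝓕 ∪ {h | ∃ j ≤ m, h = fun x => ∑ i ∈ range j, w i * g i x})

/-- [RH Bt] The negative of a small natural number with `T'` NOT gates; prove `StEx → StBt`.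
Induction on `T'`. For `T' = 0` we have `S = 0` and use the constant `0`. Step: `S x < 2 ^ (T' + 1)`.
Let `β x = 1` if `2 ^ T' ≤ S x` and `0` otherwise (a nondecreasing function of `S`), `γ = 1 - β`
(NOT gate), `S' = S + 2 ^ T' * γ - 2 ^ T'` (a nondecreasing function of `S` and `γ`), which has the
values `S x - 2 ^ T' * β x`, natural numbers `< 2 ^ T'`. By induction `-S'` is computed with `T'` more
NOT gates, and `-S = -S' + 2 ^ T' * γ - 2 ^ T'`. So `4` gates for each step. -/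
def StBt : Prop :=
  ∀ (ι : Type) (T' s T : ℕ) (𝓕 : Set ((ι → Bool) → ℝ)), Prov s T 𝓕 →
    ∀ S : (ι → Bool) → ℕ, (fun x => (S x : ℝ)) ∈ 𝓕 → (∀ x, S x < 2 ^ T') →
      Prov (s + 4 * T' + 1) (T + T') (insert (fun x => -(S x : ℝ)) 𝓕)

/-- [RH Cp] The complements of all variables, for `ι = Fin n`; prove `StEx → StSu → StBt → StCp`.
`n` gates for the variables `x i`. By `StSu` (weights `1`) all partial sums `∑ i ∈ range j, x i`
(`n + 1` gates), in particular `S = ∑ x i < 2 ^ (Nat.log 2 n + 1)` (`Nat.lt_pow_succ_log_self`); by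
`StBt` `M = -S` (`4 (log₂ n + 1) + 1` gates, `log₂ n + 1` NOT gates). Again by `StSu`, applied to the
reversed order `x (n - 1 - i)`, all sums `∑ i ∈ Ico j n, x i` (`n + 1` gates). For each `i` one
addition gives `∑_{i' ≠ i} x i'`, and one more gate `φ a c = if 0 ≤ a + c then 1 else 0`, applied to it
and `M`, gives `1` iff `∑_{i' ≠ i} x i' ≥ ∑ x i'` iff `x i = 0`, i.e. `1 - x i` (`2 n` gates). In all
`n + (n + 1) + (4 (log₂ n + 1) + 1) + (n + 1) + 2 n ≤ 5 n + 4 log₂ n + 7 ≤ 9 n + 7` gates. -/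
def StCp : Prop :=
  ∀ n : ℕ, Prov (ι := Fin n) (9 * n + 7) (Nat.log 2 n + 1)
    ({h | ∃ i : Fin n, h = fun x => if x i then (1 : ℝ) else 0} ∪
      {h | ∃ i : Fin n, h = fun x => if x i then (0 : ℝ) else 1})

/-- [RH Fn] Every function; prove `StEx → StSu → StCp → StFn`. By `StSu` (weights `2 ^ i`) the numbers
`N x = ∑ i, 2 ^ i * x i` and `N' x = ∑ i, 2 ^ i * (1 - x i)`, `2 (n + 1)` gates;
`N x + N' x = 2 ^ n - 1` and `N` is injective. Last gate: `φ a c = 1` if there is `z` with `f z = true`,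
`N z ≤ a` and `N' z ≤ c`, and `0` otherwise: nondecreasing, and `φ (N x) (N' x) = 1` iff `f x = true`
(if `N z ≤ N x` and `N' z ≤ N' x`, then both are equal, so `z = x`). A circuit may be made larger by
adding constants. For `ι` with `n` elements take a bijection with `Fin n` and rename the variables. -/
def StFn : Prop :=
  ∀ (ι : Type) [Fintype ι] (f : (ι → Bool) → Bool),
    ∃ (c : Circuit ι (11 * Fintype.card ι + 10)) (o : Fin (11 * Fintype.card ι + 10)),
      FanIn c 2 ∧ (∀ i, Arb c i → IsNot c i) ∧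
      Nat.card {i // Arb c i} ≤ Nat.log 2 (Fintype.card ι) + 1 ∧
      ∀ x, val c x o = if f x = true then 1 else 0

end Pool.Agent.RH
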